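import Pool.Agent.TH82.BS.Fix

/-!
Abelian normal subgroups in a minimal counterexample of the linear theorem are cyclic and
central.
-/

namespace Pool.Agent.TH82.BS

open scoped Pointwise commutatorElement

universe u

/-- An abelian group acting on a nonzero finite abelian group has an invariant subgroup on which
it acts through the unit group of a finite field. -/
theorem exists_field_rep {A : Type u} [CommGroup A] {V : Type u} [AddCommGroup V] [Finite V]
    [Nontrivial V] [DistribMulAction A V] :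
    ∃ U : AddSubgroup V, U ≠ ⊥ ∧ (∀ a : A, ∀ v ∈ U, a • v ∈ U) ∧
      ∃ (k : Type u) (_ : Field k) (_ : Finite k) (θ : A →* kˣ),
        ∀ a : A, θ a = 1 ↔ ∀ v ∈ U, a • v = v := by
  classical
  let R := MonoidAlgebra ℤ A
  let F : R →ₐ[ℤ] AddMonoid.End V :=
    MonoidAlgebra.lift ℤ (AddMonoid.End V) A (DistribMulAction.toAddMonoidEnd A V)
  let _ : Module R V := Module.compHom V F.toRingHom
  have hact : ∀ (a : A) (v : V), (MonoidAlgebra.of ℤ A a : R) • v = a • v := by
    intro a v
    change F (MonoidAlgebra.of ℤ A a) v = a • v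
    have : F (MonoidAlgebra.of ℤ A a) = DistribMulAction.toAddMonoidEnd A V a :=
      MonoidAlgebra.lift_of _ _
    rw [this]
    rfl
  have : Finite (Submodule R V) :=
    Finite.of_injective (fun U : Submodule R V => (U : Set V)) SetLike.coe_injective
  obtain ⟨U, hU⟩ := IsAtomic.exists_atom (Submodule R V)
  have : IsSimpleModule R U := isSimpleModule_iff_isAtom.mpr hU
  obtain ⟨I, hI, ⟨e⟩⟩ := isSimpleModule_iff_quot_maximal.mp (inferInstance : IsSimpleModule R U)
  have hq : ∀ (r : R) (x : R ⧸ I), r • x = Ideal.Quotient.mk I r * x := by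
    intro r x
    obtain ⟨y, rfl⟩ := Ideal.Quotient.mk_surjective x
    rfl
  refine ⟨U.toAddSubgroup, ?_, ?_, R ⧸ I, Ideal.Quotient.field I, ?_,
    ((Ideal.Quotient.mk I : R →* R ⧸ I).comp (MonoidAlgebra.of ℤ A)).toHomUnits, ?_⟩
  · intro h
    apply hU.1
    rw [eq_bot_iff]
    intro v hv
    have : v ∈ U.toAddSubgroup := hv
    rw [h] at this
    exact this
  · intro a v hv
    rw [← hact]
    exact U.smul_mem _ hv
  · exact Finite.of_equiv U e.toEquiv
  · intro a
    have h1 : ((Ideal.Quotient.mk I : R →* R ⧸ I).comp (MonoidAlgebra.of ℤ A)).toHomUnits a = 1 ↔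
        Ideal.Quotient.mk I (MonoidAlgebra.of ℤ A a) = 1 := by
      rw [Units.ext_iff]
      rfl
    rw [h1]
    constructor
    · intro h v hv
      have h2 : (MonoidAlgebra.of ℤ A a : R) • (⟨v, hv⟩ : U) = ⟨v, hv⟩ := by
        apply e.injective
        rw [map_smul, hq, h, one_mul]
      have h3 := congrArg Subtype.val h2
      rw [← hact]
      exact h3
    · intro h
      have h2 : (MonoidAlgebra.of ℤ A a : R) • (e.symm 1) = e.symm 1 := by
        apply Subtype.ext
        change (MonoidAlgebra.of ℤ A a : R) • ((e.symm 1 : U) : V) = _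
        rw [hact]
        exact h _ (e.symm 1).2
      have h3 := congrArg e h2
      rw [map_smul, e.apply_symm_apply, hq, mul_one] at h3
      exact h3

section abelnormal

variable {T : Type u} [Group T] [IsSimpleGroup T]
variable {G : Type u} [Group G] [Finite G]
variable {V : Type u} [AddCommGroup V] [Finite V] [DistribMulAction G V]

theorem abelian_normal_cyclic [Nontrivial V] (hT : ¬ ∀ a b : T, a * b = b * a) (φ : G →* T)
    (hφ : Function.Surjective φ) (hO : OutFree φ)
    (ihp : IHP T (Nat.card G) (Nat.card V)) (ihl : IHL T (Nat.card G) (Nat.card V))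
    (hfaith : ∀ g : G, (∀ v : V, g • v = v) → g = 1)
    (hirr : ∀ W : AddSubgroup V, (∀ g : G, ∀ w ∈ W, g • w ∈ W) → W = ⊥ ∨ W = ⊤)
    (hbad : ¬ LinConcl φ V)
    (A : Subgroup G) (hA : A.Normal) (hab : ∀ a ∈ A, ∀ b ∈ A, a * b = b * a) :
    IsCyclic A := by
  let _ : CommGroup A :=
    { (inferInstance : Group A) with
      mul_comm := fun a b => Subtype.ext (hab a a.2 b b.2) }
  obtain ⟨U, hU, hUinv, k, _, _, θ, hθ⟩ := exists_field_rep (A := A) (V := V)
  refine isCyclic_of_injective θ ?_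
  rw [injective_iff_map_eq_one]
  intro a ha
  obtain ⟨u, hu, hu0⟩ := (AddSubgroup.bot_or_exists_ne_zero U).resolve_left hU
  have h1 : ∀ v ∈ U, a • v = v := (hθ a).mp ha
  have h2 : (a : G) • u = u := h1 u hu
  have h3 : Subgroup.zpowers (a : G) = ⊥ := by
    refine fix_lemma hT φ hφ hO ihp ihl hfaith hirr hbad A hA _ ?_ ?_ ⟨u, hu0, ?_⟩
    · rw [Subgroup.zpowers_le]; exact a.2
    · rintro b hb _ ⟨n, rfl⟩
      have h4 : b * (a : G) ^ n * b⁻¹ = (a : G) ^ n := by
        rw [hab b hb _ (A.zpow_mem a.2 n)]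
        group
      simp only
      rw [h4]
      exact ⟨n, rfl⟩
    · have h5 : Subgroup.zpowers (a : G) ≤ MulAction.stabilizer G u := by
        rw [Subgroup.zpowers_le]
        exact h2
      exact fun k hk => h5 hk
  rw [Subgroup.zpowers_eq_bot] at h3
  exact Subtype.ext h3

omit [Finite G] in
theorem central_of_cyclic_normal (hperf : ⁅(⊤ : Subgroup G), (⊤ : Subgroup G)⁆ = ⊤)
    (A : Subgroup G) (hA : A.Normal) (hcyc : IsCyclic A) : A ≤ Subgroup.center G := by
  obtain ⟨⟨a, ha⟩, hgen⟩ := hcyc.exists_generator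
  have hgen' : ∀ x ∈ A, ∃ n : ℤ, x = a ^ n := by
    intro x hx
    obtain ⟨n, hn⟩ := hgen ⟨x, hx⟩
    exact ⟨n, by simpa using (congrArg Subtype.val hn).symm⟩
  have hsame : ∀ g h : G, ∀ x ∈ A, (g * h) * x * (g * h)⁻¹ = (h * g) * x * (h * g)⁻¹ := by
    intro g h x hx
    obtain ⟨n, rfl⟩ := hgen' x hx
    obtain ⟨i, hi⟩ := hgen' _ (hA.conj_mem a ha g)
    obtain ⟨j, hj⟩ := hgen' _ (hA.conj_mem a ha h)
    have e1 : ∀ (g : G) (m : ℤ), g * a ^ m * g⁻¹ = (g * a * g⁻¹) ^ m := by
      intro g m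
      rw [conj_zpow]
    have e2 : (g * h) * a ^ n * (g * h)⁻¹ = g * (h * a ^ n * h⁻¹) * g⁻¹ := by group
    have e3 : (h * g) * a ^ n * (h * g)⁻¹ = h * (g * a ^ n * g⁻¹) * h⁻¹ := by group
    rw [e2, e3, e1 h, e1 g, hi, hj, ← zpow_mul, ← zpow_mul, e1, e1, hi, hj, ← zpow_mul,
      ← zpow_mul]
    congr 1
    ring
  have hle : ⁅(⊤ : Subgroup G), (⊤ : Subgroup G)⁆ ≤ Subgroup.centralizer (A : Set G) := by
    rw [Subgroup.commutator_le]
    intro g _ h _
    rw [Subgroup.mem_centralizer_iff]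
    intro x hx
    have hx' : (h * g)⁻¹ * x * (h * g) ∈ A := by
      have := hA.conj_mem x hx (h * g)⁻¹
      simpa using this
    have h1 := hsame g h _ hx'
    have h2 : (h * g) * ((h * g)⁻¹ * x * (h * g)) * (h * g)⁻¹ = x := by group
    rw [h2] at h1
    rw [commutatorElement_def]
    have h3 : g * h * g⁻¹ * h⁻¹ * x = (g * h * ((h * g)⁻¹ * x * (h * g)) * (g * h)⁻¹) *
      (g * h * g⁻¹ * h⁻¹) := by group
    rw [h3, h1]
  rw [hperf] at hle
  intro x hx
  rw [Subgroup.mem_center_iff]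
  intro g
  have := hle (Subgroup.mem_top g)
  rw [Subgroup.mem_centralizer_iff] at this
  exact (this x hx).symm

end abelnormal

end Pool.Agent.TH82.BS
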