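import Mathlib

/-!
Basic facts about homomorphisms `φ : G →* T` onto a nonabelian simple group, used for the
bounded subset theorem.
-/

namespace Pool.Agent.TH82.BS

open scoped Pointwise commutatorElement

universe u

/-- `T` is not a homomorphic image of a subgroup of `Out S`: no subgroup `A` of `Aut S` has a
homomorphism onto `T` which kills all inner automorphisms contained in `A`. -/
def NotOutSection (T S : Type u) [Group T] [Group S] : Prop :=
  ∀ (A : Subgroup (MulAut S)) (ψ : A →* T),
    (∀ a : A, (a : MulAut S) ∈ (MulAut.conj : S →* MulAut S).range → ψ a = 1) →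
    ¬ Function.Surjective ψ

/-- For every nonabelian simple section `S` of `ker φ`, the group `T` is not a section of
`Out S`. -/
def OutFree {G T : Type u} [Group G] [Group T] (φ : G →* T) : Prop :=
  ∀ (S : Type u) [Group S] [IsSimpleGroup S], (¬ ∀ a b : S, a * b = b * a) →
    ∀ A : Subgroup G, A ≤ φ.ker → ∀ π : A →* S, Function.Surjective π → NotOutSection T S

/-- Conclusion of the permutation theorem for `G` acting on `Ω`. -/
def PermConcl {G T : Type u} [Group G] [Group T] (φ : G →* T) (Ω : Type u)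
    [MulAction G Ω] : Prop :=
  ∃ Δ : Set Ω, Δ.ncard ≤ 3 ∧ Δ.Finite ∧ (MulAction.stabilizer G Δ).map φ ≠ ⊤

/-- Conclusion of the linear theorem for `G` acting on `V`. -/
def LinConcl {G T : Type u} [Group G] [Group T] (φ : G →* T) (V : Type u)
    [AddCommGroup V] [DistribMulAction G V] : Prop :=
  ∃ v₁ v₂ : V, (MulAction.stabilizer G v₁ ⊓ MulAction.stabilizer G v₂).map φ ≠ ⊤

section basic

variable {T : Type u} [Group T] [IsSimpleGroup T]
variable {G : Type u} [Group G]

theorem commutator_top_of_simple (hT : ¬ ∀ a b : T, a * b = b * a) :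
    ⁅(⊤ : Subgroup T), (⊤ : Subgroup T)⁆ = ⊤ := by
  rcases (inferInstance : (⁅(⊤ : Subgroup T), (⊤ : Subgroup T)⁆).Normal).eq_bot_or_eq_top with h | h
  · exfalso
    apply hT
    intro a b
    rw [Subgroup.commutator_eq_bot_iff_le_centralizer] at h
    have := h (Subgroup.mem_top a)
    rw [Subgroup.mem_centralizer_iff] at this
    exact (this b (Set.mem_univ b)).symm
  · exact h

omit [IsSimpleGroup T] in
theorem map_top_mono {φ : G →* T} {A B : Subgroup G} (h : A ≤ B) (hA : A.map φ = ⊤) :
    B.map φ = ⊤ := by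
  rw [eq_top_iff, ← hA]
  exact Subgroup.map_mono h

/-- If `φ(A) = T = φ(B)` then `φ([A,B]) = T`. -/
theorem map_commutator_eq_top (hT : ¬ ∀ a b : T, a * b = b * a) {φ : G →* T}
    {A B : Subgroup G} (hA : A.map φ = ⊤) (hB : B.map φ = ⊤) : (⁅A, B⁆).map φ = ⊤ := by
  rw [Subgroup.map_commutator, hA, hB, commutator_top_of_simple hT]

theorem map_eq_top_of_commutator_le (hT : ¬ ∀ a b : T, a * b = b * a) {φ : G →* T}
    {J K : Subgroup G} (hJ : J.map φ = ⊤) (h : ⁅J, J⁆ ≤ K) : K.map φ = ⊤ :=
  map_top_mono h (map_commutator_eq_top hT hJ hJ)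

/-- A subgroup normalised by a subgroup mapping onto `T` maps to `1` or `T`. -/
theorem map_eq_bot_or_top {φ : G →* T} {A K : Subgroup G} (hK : K.map φ = ⊤)
    (h : ∀ k ∈ K, ∀ a ∈ A, k * a * k⁻¹ ∈ A) : A.map φ = ⊥ ∨ A.map φ = ⊤ := by
  have hn : (A.map φ).Normal := by
    constructor
    rintro _ ⟨a, ha, rfl⟩ t
    have ht : t ∈ K.map φ := by rw [hK]; exact Subgroup.mem_top t
    obtain ⟨k, hk, rfl⟩ := ht
    exact ⟨k * a * k⁻¹, h k hk a ha, by simp⟩
  exact hn.eq_bot_or_eq_top

theorem center_eq_bot (hT : ¬ ∀ a b : T, a * b = b * a) : Subgroup.center T = ⊥ := by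
  rcases (inferInstance : (Subgroup.center T).Normal).eq_bot_or_eq_top with h | h
  · exact h
  · exfalso
    apply hT
    intro a b
    have : a ∈ Subgroup.center T := by rw [h]; exact Subgroup.mem_top a
    exact (Subgroup.mem_center_iff.mp this b).symm

/-- A subgroup commuting modulo `ker φ` with a subgroup mapping onto `T` lies in `ker φ`. -/
theorem eq_one_of_commute (hT : ¬ ∀ a b : T, a * b = b * a) {φ : G →* T} {K : Subgroup G}
    (hK : K.map φ = ⊤) {g : G} (h : ∀ k ∈ K, φ (g * k) = φ (k * g)) : φ g = 1 := by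
  have : φ g ∈ Subgroup.center T := by
    rw [Subgroup.mem_center_iff]
    intro t
    have ht : t ∈ K.map φ := by rw [hK]; exact Subgroup.mem_top t
    obtain ⟨k, hk, rfl⟩ := ht
    rw [← map_mul, ← map_mul, h k hk]
  rw [center_eq_bot hT] at this
  exact Subgroup.mem_bot.mp this

/-- Finite intersections: if the `A i` are normalised by `K`, contained in `K` and all map onto
`T`, so does their intersection. -/
theorem map_inf_finset (hT : ¬ ∀ a b : T, a * b = b * a) {φ : G →* T} {K : Subgroup G}
    (hK : K.map φ = ⊤) {ι : Type*} (s : Finset ι) (A : ι → Subgroup G)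
    (hn : ∀ i ∈ s, ∀ k ∈ K, ∀ a ∈ A i, k * a * k⁻¹ ∈ A i)
    (hA : ∀ i ∈ s, (K ⊓ A i).map φ = ⊤) : (K ⊓ s.inf A).map φ = ⊤ := by
  classical
  induction s using Finset.induction_on with
  | empty => simpa using hK
  | insert i s hi ih =>
    have h1 := ih (fun j hj => hn j (Finset.mem_insert_of_mem hj))
      (fun j hj => hA j (Finset.mem_insert_of_mem hj))
    have h2 := hA i (Finset.mem_insert_self i s)
    have h3 := map_commutator_eq_top hT h2 h1
    refine map_top_mono ?_ h3
    rw [Finset.inf_insert]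
    rw [Subgroup.commutator_le]
    rintro a ⟨ha, ha'⟩ b ⟨hb, hb'⟩
    have hs : ∀ k ∈ K, ∀ a ∈ s.inf A, k * a * k⁻¹ ∈ s.inf A := by
      intro k hk a ha
      rw [Finset.inf_eq_iInf] at ha ⊢
      simp only [Subgroup.mem_iInf] at ha ⊢
      intro j hj
      exact hn j (Finset.mem_insert_of_mem hj) k hk a (ha j hj)
    refine ⟨?_, ?_, ?_⟩
    · rw [commutatorElement_def]
      exact K.mul_mem (K.mul_mem (K.mul_mem ha hb) (K.inv_mem ha)) (K.inv_mem hb)
    · have : ⁅a, b⁆ = a * (b * a⁻¹ * b⁻¹) := by rw [commutatorElement_def]; group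
      rw [this]
      exact (A i).mul_mem ha' (hn i (Finset.mem_insert_self i s) b hb _ ((A i).inv_mem ha'))
    · have : ⁅a, b⁆ = (a * b * a⁻¹) * b⁻¹ := by rw [commutatorElement_def]
      rw [this]
      exact (s.inf A).mul_mem (hs a ha b hb') ((s.inf A).inv_mem hb')

/-- The kernel of a homomorphism from `J` to a solvable group still maps onto `T`. -/
theorem map_ker_eq_top_of_solvable (hT : ¬ ∀ a b : T, a * b = b * a) {φ : G →* T}
    {J : Subgroup G} (hJ : J.map φ = ⊤) {Q : Type*} [Group Q] [Group.IsSolvable Q] (θ : J →* Q) :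
    (θ.ker.map J.subtype).map φ = ⊤ := by
  obtain ⟨n, hn⟩ := (Group.isSolvable_def Q).mp inferInstance
  have h1 : derivedSeries J n ≤ θ.ker := by
    intro x hx
    have : θ x ∈ derivedSeries Q n := map_derivedSeries_le_derivedSeries θ n ⟨x, hx, rfl⟩
    rw [hn] at this
    exact this
  have h2 : ∀ m, ((derivedSeries J m).map J.subtype).map φ = ⊤ := by
    intro m
    induction m with
    | zero =>
      rw [derivedSeries_zero]
      rw [← hJ]
      congr 1
      ext x
      simp
    | succ m ih =>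
      rw [derivedSeries_succ, Subgroup.map_commutator]
      exact map_commutator_eq_top hT ih ih
  exact map_top_mono (Subgroup.map_mono h1) (h2 n)

end basic

section perm3

theorem isSolvable_perm_fin_three : Group.IsSolvable (Equiv.Perm (Fin 3)) := by
  have h : ∀ a b : alternatingGroup (Fin 3), a * b = b * a := by decide
  have h1 : Group.IsSolvable (alternatingGroup (Fin 3)) := Group.isSolvable_of_comm h
  refine Group.isSolvable_of_ker_le_range (alternatingGroup (Fin 3)).subtype
    (Equiv.Perm.sign : Equiv.Perm (Fin 3) →* ℤˣ) ?_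
  intro x hx
  exact ⟨⟨x, by simpa [Equiv.Perm.mem_alternatingGroup] using hx⟩, rfl⟩

theorem perm_solvable_of_card_le_three (α : Type*) [Finite α] (h : Nat.card α ≤ 3) :
    Group.IsSolvable (Equiv.Perm α) := by
  classical
  have := Fintype.ofFinite α
  have h' : Nonempty (α ↪ Fin 3) := by
    apply Function.Embedding.nonempty_of_card_le
    simpa [Nat.card_eq_fintype_card] using h
  obtain ⟨e⟩ := h'
  have := isSolvable_perm_fin_three
  exact Group.isSolvable_of_isSolvable_injective (Equiv.Perm.viaEmbeddingHom_injective e)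

end perm3

section block

variable {T : Type u} [Group T] [IsSimpleGroup T]
variable {G : Type u} [Group G]

/-- **Block lemma.** `G` acts on a finite set `ι`; `K` is contained in the kernel of this action
and normal, `φ(K) = T`.  `E i` are subgroups of the point stabilizers `G_i`, normal in them.
If the elements of `K` lying in all `E i` are in `ker φ`, then some `E i` lies in `ker φ`. -/
theorem block_lemma (hT : ¬ ∀ a b : T, a * b = b * a) {φ : G →* T} {K : Subgroup G}
    (hK : K.map φ = ⊤) {ι : Type*} [Finite ι]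
    (E St : ι → Subgroup G)
    (hKn : ∀ i, ∀ g ∈ St i, ∀ k ∈ K, g * k * g⁻¹ ∈ K)
    (hE : ∀ i, E i ≤ St i)
    (hEn : ∀ i, ∀ k ∈ K, ∀ e ∈ E i, k * e * k⁻¹ ∈ E i)
    (hker : ∀ g ∈ K, (∀ i, g ∈ E i) → φ g = 1) :
    ∃ i, ∀ g ∈ E i, φ g = 1 := by
  classical
  have := Fintype.ofFinite ι
  by_contra hcon
  push Not at hcon
  have key : ∀ i, (K ⊓ E i).map φ = ⊤ := by
    intro i
    rcases map_eq_bot_or_top (A := K ⊓ E i) hK (by
      rintro k hk a ⟨ha, ha'⟩
      exact ⟨K.mul_mem (K.mul_mem hk ha) (K.inv_mem hk), hEn i k hk a ha'⟩) with h | h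
    · exfalso
      obtain ⟨g, hg, hg1⟩ := hcon i
      apply hg1
      apply eq_one_of_commute hT hK
      intro k hk
      have hmem : g * k * g⁻¹ * k⁻¹ ∈ K ⊓ E i := by
        refine ⟨K.mul_mem (hKn i g (hE i hg) k hk) (K.inv_mem hk), ?_⟩
        have : g * k * g⁻¹ * k⁻¹ = g * (k * g⁻¹ * k⁻¹) := by group
        rw [this]
        exact (E i).mul_mem hg (hEn i k hk _ ((E i).inv_mem hg))
      have h3 : φ (g * k * g⁻¹ * k⁻¹) ∈ (K ⊓ E i).map φ := ⟨_, hmem, rfl⟩
      rw [h, Subgroup.mem_bot] at h3
      have h4 : g * k = (g * k * g⁻¹ * k⁻¹) * (k * g) := by group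
      rw [h4, map_mul, h3, one_mul]
    · exact h
  have h5 := map_inf_finset hT hK Finset.univ E
    (fun i _ k hk a ha => hEn i k hk a ha) (fun i _ => key i)
  have h6 : ∀ g ∈ K ⊓ Finset.univ.inf E, φ g = 1 := by
    rintro g ⟨hg, hg'⟩
    refine hker g hg (fun i => ?_)
    have h7 : Finset.univ.inf E ≤ E i := Finset.inf_le (Finset.mem_univ i)
    exact h7 hg'
  apply hT
  have h8 : ∀ t : T, t = 1 := by
    intro t
    have ht : t ∈ (K ⊓ Finset.univ.inf E).map φ := by rw [h5]; exact Subgroup.mem_top t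
    obtain ⟨g, hg, rfl⟩ := ht
    exact h6 g hg
  intro a b
  rw [h8 a, h8 b]

end block

section inherit

variable {G T : Type u} [Group G] [Group T]

theorem OutFree.subgroup {φ : G →* T} (h : OutFree φ) (R : Subgroup G) :
    OutFree (φ.comp R.subtype) := by
  intro S _ _ hS A hA π hπ
  refine h S hS (A.map R.subtype) ?_ (π.comp
    (A.equivMapOfInjective R.subtype R.subtype_injective).symm.toMonoidHom) ?_
  · rintro _ ⟨a, ha, rfl⟩
    exact hA ha
  · exact hπ.comp (A.equivMapOfInjective R.subtype R.subtype_injective).symm.surjective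

theorem OutFree.quotient {φ : G →* T} (h : OutFree φ) (E : Subgroup G) [E.Normal]
    (hE : E ≤ φ.ker) : OutFree (QuotientGroup.lift E φ hE) := by
  intro S _ _ hS A hA π hπ
  refine h S hS (A.comap (QuotientGroup.mk' E)) ?_
    (π.comp ((QuotientGroup.mk' E).subgroupComap A)) ?_
  · intro a ha
    have := hA ha
    rw [MonoidHom.mem_ker] at this ⊢
    simpa using this
  · refine hπ.comp ?_
    exact MonoidHom.subgroupComap_surjective_of_surjective _ A (QuotientGroup.mk'_surjective E)

end inherit

end Pool.Agent.TH82.BS
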