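import Pool.Agent.TH82.BS.NSMax

/-!
Chinese remainder facts for the nonabelian lemma.
-/

namespace Pool.Agent.TH82.BS

open scoped Pointwise commutatorElement

universe u

section crt

variable {M : Type u} [Group M]

theorem sup_eq_top_of_normalized {C : Subgroup M} (hC : NSMax C) {D : Subgroup M}
    (hDC : D ⊔ C = ⊤) {A : Subgroup M}
    (hAn : ∀ d ∈ D, ∀ a ∈ A, d * a * d⁻¹ ∈ A) (hAC : ¬ A ≤ C) : A ⊔ C = ⊤ := by
  have hCn := hC.normal
  have hn : (A ⊔ C).Normal := by
    have h1 : D ≤ Subgroup.normalizer ((A ⊔ C : Subgroup M) : Set M) := by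
      intro d hd
      rw [Subgroup.mem_normalizer_iff]
      have hfwd : ∀ d ∈ D, ∀ x ∈ A ⊔ C, d * x * d⁻¹ ∈ A ⊔ C := by
        intro d hd x hx
        rw [← SetLike.mem_coe, Subgroup.mul_normal] at hx
        obtain ⟨a, ha, c, hc, rfl⟩ := hx
        have e : d * (a * c) * d⁻¹ = (d * a * d⁻¹) * (d * c * d⁻¹) := by group
        simp only
        rw [e]
        exact Subgroup.mul_mem _ (Subgroup.mem_sup_left (hAn d hd a ha))
          (Subgroup.mem_sup_right (hCn.conj_mem c hc d))
      intro x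
      constructor
      · exact hfwd d hd x
      · intro h
        have := hfwd d⁻¹ (D.inv_mem hd) _ h
        have e : d⁻¹ * (d * x * d⁻¹) * d⁻¹⁻¹ = x := by group
        rwa [e] at this
    have h2 : C ≤ Subgroup.normalizer ((A ⊔ C : Subgroup M) : Set M) :=
      le_sup_right.trans Subgroup.le_normalizer
    have h3 : Subgroup.normalizer ((A ⊔ C : Subgroup M) : Set M) = ⊤ := by
      rw [eq_top_iff, ← hDC]
      exact sup_le h1 h2
    exact Subgroup.normalizer_eq_top_iff.mp h3
  rcases hC.maximal _ hn le_sup_right with h | h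
  · exact absurd (le_sup_left.trans h.le) hAC
  · exact h

theorem fact0 {C : Subgroup M} (hC : NSMax C) {D : Subgroup M} (hDC : D ⊔ C = ⊤)
    {A B : Subgroup M} (hA : A ≤ D) (hB : B ≤ D)
    (hAn : ∀ d ∈ D, ∀ a ∈ A, d * a * d⁻¹ ∈ A) (hBn : ∀ d ∈ D, ∀ a ∈ B, d * a * d⁻¹ ∈ B)
    (hAC : ¬ A ≤ C) (hBC : ¬ B ≤ C) : ¬ A ⊓ B ≤ C := by
  intro hAB
  have hCn := hC.normal
  have h1 := sup_eq_top_of_normalized hC hDC hAn hAC
  have h2 := sup_eq_top_of_normalized hC hDC hBn hBC
  have h3 : ⁅A, B⁆ ≤ C := by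
    refine le_trans ?_ hAB
    rw [Subgroup.commutator_le]
    intro a ha b hb
    refine ⟨?_, ?_⟩
    · have : ⁅a, b⁆ = a * (b * a⁻¹ * b⁻¹) := by rw [commutatorElement_def]; group
      rw [this]
      exact A.mul_mem ha (hAn b (hB hb) _ (A.inv_mem ha))
    · rw [commutatorElement_def]
      exact B.mul_mem (hBn a (hA ha) b hb) (B.inv_mem hb)
  apply hC.nonab
  have hmap : ∀ X : Subgroup M, X ⊔ C = ⊤ → X.map (QuotientGroup.mk' C) = ⊤ := by
    intro X hX
    have : (X ⊔ C).map (QuotientGroup.mk' C) = ⊤ := by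
      rw [hX]
      exact Subgroup.map_top_of_surjective _ (QuotientGroup.mk'_surjective C)
    rw [Subgroup.map_sup, (Subgroup.map_eq_bot_iff C).mpr (QuotientGroup.ker_mk' C).ge,
      sup_bot_eq] at this
    exact this
  have h4 : (⁅(⊤ : Subgroup M), (⊤ : Subgroup M)⁆).map (QuotientGroup.mk' C) = ⊥ := by
    rw [Subgroup.map_commutator, Subgroup.map_top_of_surjective _
      (QuotientGroup.mk'_surjective C), ← hmap A h1]
    nth_rw 2 [hmap A h1]
    rw [← hmap B h2, ← Subgroup.map_commutator]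
    exact (Subgroup.map_eq_bot_iff _).mpr (h3.trans (QuotientGroup.ker_mk' C).ge)
  have h5 := (Subgroup.map_eq_bot_iff _).mp h4
  rwa [QuotientGroup.ker_mk'] at h5

theorem fact0_finset {C : Subgroup M} (hC : NSMax C) {D : Subgroup M} (hDC : D ⊔ C = ⊤)
    (s : Finset (Subgroup M)) (hs : ∀ A ∈ s, A.Normal) (hsC : ∀ A ∈ s, ¬ D ⊓ A ≤ C) :
    ¬ D ⊓ s.inf id ≤ C := by
  classical
  induction s using Finset.induction_on with
  | empty =>
    intro h
    simp only [Finset.inf_empty, inf_top_eq] at h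
    apply hC.ne_top
    rw [eq_top_iff, ← hDC]
    exact sup_le h le_rfl
  | insert A s hA ih =>
    have h1 := ih (fun B hB => hs B (Finset.mem_insert_of_mem hB))
      (fun B hB => hsC B (Finset.mem_insert_of_mem hB))
    have h2 := hsC A (Finset.mem_insert_self A s)
    have hAn := hs A (Finset.mem_insert_self A s)
    have h3 := fact0 hC hDC (A := D ⊓ A) (B := D ⊓ s.inf id) inf_le_left inf_le_left
      (by
        rintro d hd a ⟨ha, ha'⟩
        exact ⟨D.mul_mem (D.mul_mem hd ha) (D.inv_mem hd), hAn.conj_mem a ha' d⟩)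
      (by
        rintro d hd a ⟨ha, ha'⟩
        refine ⟨D.mul_mem (D.mul_mem hd ha) (D.inv_mem hd), ?_⟩
        have ha' : a ∈ s.inf id := ha'
        change d * a * d⁻¹ ∈ s.inf id
        rw [Finset.inf_eq_iInf] at ha' ⊢
        simp only [Subgroup.mem_iInf] at ha' ⊢
        intro B hB
        exact (hs B (Finset.mem_insert_of_mem hB)).conj_mem a (ha' B hB) d) h2 h1
    intro h
    apply h3
    refine le_trans ?_ h
    rw [Finset.inf_insert]
    rintro x ⟨⟨hx1, hx2⟩, ⟨-, hx3⟩⟩
    exact ⟨hx1, hx2, hx3⟩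

variable [Finite M]

/-- Chinese remainder theorem for the family. -/
theorem crt (CC : Set (Subgroup M)) (hCC : ∀ C ∈ CC, NSMax C) (y : Subgroup M → M) :
    ∃ x : M, ∀ C ∈ CC, (y C)⁻¹ * x ∈ C := by
  classical
  have hfin : CC.Finite := Set.toFinite CC
  suffices h : ∀ s : Finset (Subgroup M), ∃ x : M, ∀ C ∈ CC,
      (if C ∈ s then y C else 1)⁻¹ * x ∈ C by
    obtain ⟨x, hx⟩ := h hfin.toFinset
    refine ⟨x, fun C hC => ?_⟩
    have := hx C hC
    rwa [if_pos (hfin.mem_toFinset.mpr hC)] at this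
  intro s
  induction s using Finset.induction_on with
  | empty => exact ⟨1, fun C _ => by simp [C.one_mem]⟩
  | insert C₀ s hC₀s ih =>
    obtain ⟨x, hx⟩ := ih
    by_cases hC₀ : C₀ ∈ CC
    · have hm := hCC C₀ hC₀
      have hnle := fact0_finset hm (D := ⊤) (by simp) (hfin.toFinset.erase C₀)
        (fun A hA => (hCC A (hfin.mem_toFinset.mp (Finset.mem_of_mem_erase hA))).normal)
        (fun A hA => by
          intro h
          rw [top_inf_eq] at h
          have hAC := hCC A (hfin.mem_toFinset.mp (Finset.mem_of_mem_erase hA))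
          rcases hAC.maximal C₀ hm.normal h with h' | h'
          · exact (Finset.ne_of_mem_erase hA) h'.symm
          · exact hm.ne_top h')
      set L := (hfin.toFinset.erase C₀).inf id with hL
      rw [top_inf_eq] at hnle
      have hLmem : ∀ l ∈ L, ∀ C ∈ CC, C ≠ C₀ → l ∈ C := by
        intro l hl C hC hne
        have : L ≤ id C := Finset.inf_le (Finset.mem_erase.mpr ⟨hne, hfin.mem_toFinset.mpr hC⟩)
        exact this hl
      have hLn : L.Normal := by
        constructor
        intro n hn g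
        rw [hL, Finset.inf_eq_iInf] at hn ⊢
        simp only [Subgroup.mem_iInf] at hn ⊢
        intro B hB
        exact (hCC B (hfin.mem_toFinset.mp (Finset.mem_of_mem_erase hB))).normal.conj_mem n
          (hn B hB) g
      have hsup : L ⊔ C₀ = ⊤ := sup_eq_top_of_normalized hm (D := ⊤) (by simp)
        (fun d _ a ha => hLn.conj_mem a ha d) hnle
      have hy : y C₀ ∈ L ⊔ C₀ := by rw [hsup]; exact Subgroup.mem_top _
      have := hm.normal
      rw [← SetLike.mem_coe, Subgroup.mul_normal] at hy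
      obtain ⟨l, hl, c, hc, hlc⟩ := hy
      refine ⟨l * x, fun C hC => ?_⟩
      by_cases hCC₀ : C = C₀
      · subst hCC₀
        rw [if_pos (Finset.mem_insert_self _ _)]
        have h1 := hx C hC
        rw [if_neg hC₀s, inv_one, one_mul] at h1
        have h2 : (y C)⁻¹ * (l * x) = c⁻¹ * x := by
          simp only at hlc
          rw [← hlc]; group
        rw [h2]
        exact C.mul_mem (C.inv_mem hc) h1
      · have h1 := hx C hC
        have h2 : (if C ∈ insert C₀ s then y C else 1) = (if C ∈ s then y C else 1) := by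
          simp [hCC₀]
        rw [h2]
        set w := (if C ∈ s then y C else 1)
        have h3 : w⁻¹ * (l * x) = (w⁻¹ * l * w) * (w⁻¹ * x) := by group
        rw [h3]
        refine C.mul_mem ?_ h1
        have := (hCC C hC).normal.conj_mem l (hLmem l hl C hC hCC₀) w⁻¹
        simpa using this
    · refine ⟨x, fun C hC => ?_⟩
      have hne : C ≠ C₀ := fun h => hC₀ (h ▸ hC)
      have := hx C hC
      simpa [hne] using this

theorem crt' (CC : Set (Subgroup M)) (hCC : ∀ C ∈ CC, NSMax C) (S : Set (Subgroup M)) :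
    ∃ x : M, ∀ C ∈ CC, x ∈ C ↔ C ∉ S := by
  classical
  have hex : ∀ C : Subgroup M, ∃ y : M, C ∈ CC → y ∉ C := by
    intro C
    by_cases hC : C ∈ CC
    · have h := (hCC C hC).ne_top
      obtain ⟨y, hy⟩ : ∃ y, y ∉ C := by
        by_contra hcon
        push Not at hcon
        exact h (eq_top_iff.mpr fun y _ => hcon y)
      exact ⟨y, fun _ => hy⟩
    · exact ⟨1, fun h => absurd h hC⟩
  choose y hy using hex
  obtain ⟨x, hx⟩ := crt CC hCC (fun C => if C ∈ S then y C else 1)
  refine ⟨x, fun C hC => ?_⟩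
  have h1 := hx C hC
  by_cases hS : C ∈ S
  · simp only [hS, if_true] at h1
    simp only [hS, not_true, iff_false]
    intro hxC
    apply hy C hC
    have := C.mul_mem hxC (C.inv_mem h1)
    have e : x * ((y C)⁻¹ * x)⁻¹ = y C := by group
    rwa [e] at this
  · simp only [hS, if_false, inv_one, one_mul] at h1
    simp [hS, h1]

end crt

end Pool.Agent.TH82.BS
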