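import Pool.Agent.TH82.BS.Basic

/-!
Decomposition lemma for the linear theorem.
-/

namespace Pool.Agent.TH82.BS

open scoped Pointwise

universe u

/-- Induction hypothesis for the permutation theorem below `(g, n)`. -/
def IHP (T : Type u) [Group T] (g n : ℕ) : Prop :=
  ∀ (G' : Type u) [Group G'] [Finite G'] (φ' : G' →* T), Function.Surjective φ' → OutFree φ' →
    ∀ (Ω' : Type u) [MulAction G' Ω'] [Finite Ω'],
      (Nat.card G' < g ∨ (Nat.card G' ≤ g ∧ Nat.card Ω' < n)) →
      (∀ x : G', (∀ ω : Ω', x • ω = ω) → φ' x = 1) → PermConcl φ' Ω'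

/-- Induction hypothesis for the linear theorem below `(g, n)`. -/
def IHL (T : Type u) [Group T] (g n : ℕ) : Prop :=
  ∀ (G' : Type u) [Group G'] [Finite G'] (φ' : G' →* T), Function.Surjective φ' → OutFree φ' →
    ∀ (V' : Type u) [AddCommGroup V'] [Finite V'] [DistribMulAction G' V'],
      (Nat.card G' < g ∨ (Nat.card G' ≤ g ∧ Nat.card V' < n)) →
      (∀ x : G', (∀ v : V', x • v = v) → φ' x = 1) → LinConcl φ' V'

section relative

variable {T : Type u} [Group T] {G : Type u} [Group G] [Finite G]

omit [Finite G] in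
theorem surjective_comp_subtype {φ : G →* T} {H : Subgroup G} (hH : H.map φ = ⊤) :
    Function.Surjective (φ.comp H.subtype) := by
  intro t
  have : t ∈ H.map φ := by rw [hH]; exact Subgroup.mem_top t
  obtain ⟨h, hh, rfl⟩ := this
  exact ⟨⟨h, hh⟩, rfl⟩

theorem IHP.apply {n : ℕ} (h : IHP T (Nat.card G) n) {φ : G →* T} (hO : OutFree φ)
    (H : Subgroup G) (hH : H.map φ = ⊤) (Ω : Type u) [MulAction H Ω] [Finite Ω]
    (hlt : Nat.card H < Nat.card G ∨ Nat.card Ω < n)
    (hker : ∀ x : H, (∀ ω : Ω, x • ω = ω) → φ x = 1) :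
    PermConcl (φ.comp H.subtype) Ω := by
  refine h H (φ.comp H.subtype) (surjective_comp_subtype hH) (hO.subgroup H) Ω ?_ hker
  rcases hlt with h1 | h1
  · exact Or.inl h1
  · exact Or.inr ⟨Nat.card_le_card_of_injective _ H.subtype_injective, h1⟩

theorem IHL.apply {n : ℕ} (h : IHL T (Nat.card G) n) {φ : G →* T} (hO : OutFree φ)
    (H : Subgroup G) (hH : H.map φ = ⊤) (V : Type u) [AddCommGroup V] [Finite V]
    [DistribMulAction H V]
    (hlt : Nat.card H < Nat.card G ∨ Nat.card V < n)
    (hker : ∀ x : H, (∀ v : V, x • v = v) → φ x = 1) :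
    LinConcl (φ.comp H.subtype) V := by
  refine h H (φ.comp H.subtype) (surjective_comp_subtype hH) (hO.subgroup H) V ?_ hker
  rcases hlt with h1 | h1
  · exact Or.inl h1
  · exact Or.inr ⟨Nat.card_le_card_of_injective _ H.subtype_injective, h1⟩

end relative

section indep

variable {V : Type u} [AddCommGroup V]

/-- A set of subgroups is independent. -/
def Ind (H : Set (AddSubgroup V)) : Prop :=
  ∀ (s : Finset (AddSubgroup V)) (f : AddSubgroup V → V),
    (∀ X ∈ s, X ∈ H ∧ f X ∈ X) → ∑ X ∈ s, f X = 0 → ∀ X ∈ s, f X = 0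

/-- Separation implies independence. -/
theorem ind_of_separation (H : Set (AddSubgroup V))
    (hsep : ∀ X ∈ H, ∀ Y ∈ H, X ≠ Y → ∀ x ∈ X, x ≠ 0 →
      ∃ a : V →+ V, (∀ Z ∈ H, ∀ z ∈ Z, a z ∈ Z) ∧ (∀ y ∈ Y, a y = 0) ∧ a x ≠ 0) :
    Ind H := by
  classical
  intro s
  induction s using Finset.strongInduction with
  | H s ih =>
    intro f hf hsum X hX
    by_contra hne
    by_cases hs : ∃ Y ∈ s, Y ≠ X
    · obtain ⟨Y, hY, hYX⟩ := hs
      obtain ⟨a, ha1, ha2, ha3⟩ := hsep X (hf X hX).1 Y (hf Y hY).1 (Ne.symm hYX) (f X)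
        (hf X hX).2 hne
      have h1 : ∑ Z ∈ s.erase Y, a (f Z) = 0 := by
        have h2 : ∑ Z ∈ s, a (f Z) = 0 := by
          rw [← map_sum, hsum, map_zero]
        rw [← Finset.add_sum_erase s _ hY, ha2 _ (hf Y hY).2, zero_add] at h2
        exact h2
      have h3 := ih (s.erase Y) (Finset.erase_ssubset hY) (fun Z => a (f Z))
        (fun Z hZ => ⟨(hf Z (Finset.mem_of_mem_erase hZ)).1,
          ha1 Z (hf Z (Finset.mem_of_mem_erase hZ)).1 _ (hf Z (Finset.mem_of_mem_erase hZ)).2⟩)
        h1 X (Finset.mem_erase.mpr ⟨Ne.symm hYX, hX⟩)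
      exact ha3 h3
    · push Not at hs
      have : s = {X} := by
        apply Finset.Subset.antisymm
        · intro Y hY
          rw [Finset.mem_singleton]
          exact hs Y hY
        · intro Y hY
          rw [Finset.mem_singleton] at hY
          rw [hY]; exact hX
      rw [this, Finset.sum_singleton] at hsum
      exact hne hsum

/-- Uniqueness of supports in an independent family. -/
theorem Ind.support_unique [DecidableEq (AddSubgroup V)] {H : Set (AddSubgroup V)} (hI : Ind H)
    (s t : Finset (AddSubgroup V)) (f f' : AddSubgroup V → V)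
    (hf : ∀ X ∈ s, X ∈ H ∧ f X ∈ X ∧ f X ≠ 0) (hf' : ∀ X ∈ t, X ∈ H ∧ f' X ∈ X ∧ f' X ≠ 0)
    (h : ∑ X ∈ s, f X = ∑ X ∈ t, f' X) : s = t := by
  have key : ∀ X ∈ s ∪ t, (if X ∈ s then f X else 0) - (if X ∈ t then f' X else 0) = 0 := by
    refine hI (s ∪ t) (fun X => (if X ∈ s then f X else 0) - (if X ∈ t then f' X else 0)) ?_ ?_
    · intro X hX
      refine ⟨?_, ?_⟩
      · rcases Finset.mem_union.mp hX with h1 | h1
        · exact (hf X h1).1
        · exact (hf' X h1).1
      · apply AddSubgroup.sub_mem
        · split_ifs with h1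
          · exact (hf X h1).2.1
          · exact X.zero_mem
        · split_ifs with h1
          · exact (hf' X h1).2.1
          · exact X.zero_mem
    · rw [Finset.sum_sub_distrib]
      rw [← Finset.sum_subset (Finset.subset_union_left (s₁ := s) (s₂ := t))
        (f := fun X => if X ∈ s then f X else 0) (by
          intro X _ hX; simp [hX])]
      rw [← Finset.sum_subset (Finset.subset_union_right (s₁ := s) (s₂ := t))
        (f := fun X => if X ∈ t then f' X else 0) (by
          intro X _ hX; simp [hX])]
      rw [Finset.sum_congr rfl (fun X hX => if_pos hX),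
        Finset.sum_congr rfl (fun X hX => if_pos hX), h, sub_self]
  apply Finset.Subset.antisymm
  · intro X hX
    by_contra hXt
    have := key X (Finset.mem_union_left _ hX)
    rw [if_pos hX, if_neg hXt, sub_zero] at this
    exact (hf X hX).2.2 this
  · intro X hX
    by_contra hXs
    have := key X (Finset.mem_union_right _ hX)
    rw [if_pos hX, if_neg hXs, zero_sub, neg_eq_zero] at this
    exact (hf' X hX).2.2 this

theorem Ind.eq_of_mem {H : Set (AddSubgroup V)} (hI : Ind H) {X Y : AddSubgroup V}
    (hX : X ∈ H) (hY : Y ∈ H) {v : V} (hv : v ≠ 0) (hvX : v ∈ X) (hvY : v ∈ Y) : X = Y := by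
  classical
  have := hI.support_unique {X} {Y} (fun _ => v) (fun _ => v)
    (by intro Z hZ; rw [Finset.mem_singleton] at hZ; subst hZ; exact ⟨hX, hvX, hv⟩)
    (by intro Z hZ; rw [Finset.mem_singleton] at hZ; subst hZ; exact ⟨hY, hvY, hv⟩)
    (by simp)
  exact Finset.singleton_injective this

end indep

section decomp

variable {T : Type u} [Group T] [IsSimpleGroup T]
variable {G : Type u} [Group G] [Finite G]
variable {V : Type u} [AddCommGroup V] [Finite V] [DistribMulAction G V]

theorem decomp_lemma (hT : ¬ ∀ a b : T, a * b = b * a) (φ : G →* T)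
    (hφ : Function.Surjective φ) (hO : OutFree φ)
    (ihp : IHP T (Nat.card G) (Nat.card V)) (ihl : IHL T (Nat.card G) (Nat.card V))
    (H : Set (AddSubgroup V)) (hinv : ∀ g : G, ∀ X ∈ H, g • X ∈ H)
    (hbot : ∀ X ∈ H, X ≠ ⊥) (htop : ∀ X ∈ H, X ≠ ⊤) (hI : Ind H)
    (hker : ∀ g : G, (∀ X ∈ H, ∀ x ∈ X, g • x = x) → φ g = 1) : LinConcl φ V := by
  classical
  have hφ' : (⊤ : Subgroup G).map φ = ⊤ := by
    rw [← MonoidHom.range_eq_map]; exact MonoidHom.range_eq_top.mpr hφ
  have hex : ∀ X : AddSubgroup V, ∃ x : V, X ∈ H → x ∈ X ∧ x ≠ 0 := by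
    intro X
    by_cases hX : X ∈ H
    · obtain ⟨x, hx, hx0⟩ := (AddSubgroup.bot_or_exists_ne_zero X).resolve_left (hbot X hX)
      exact ⟨x, fun _ => ⟨hx, hx0⟩⟩
    · exact ⟨0, fun h => absurd h hX⟩
  choose c hc using hex
  -- the kernel of the action on `H`
  let K : Subgroup G :=
    { carrier := {g | ∀ X ∈ H, g • X = X}
      one_mem' := fun X _ => one_smul _ _
      mul_mem' := by
        intro a b ha hb X hX
        rw [mul_smul, hb X hX, ha X hX]
      inv_mem' := by
        intro a ha X hX
        rw [inv_smul_eq_iff, ha X hX] }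
  have hKn : ∀ g : G, ∀ k ∈ K, g * k * g⁻¹ ∈ K := by
    intro g k hk X hX
    rw [mul_smul, mul_smul, hk _ (hinv g⁻¹ X hX), smul_inv_smul]
  rcases map_eq_bot_or_top (A := K) hφ' (fun k _ a ha => hKn k a ha) with hK | hK
  · -- the permutation theorem applies to the action on `H`
    let _ : MulAction G H :=
      { smul := fun g X => ⟨g • (X : AddSubgroup V), hinv g X X.2⟩
        one_smul := fun X => Subtype.ext (one_smul G (X : AddSubgroup V))
        mul_smul := fun a b X => Subtype.ext (mul_smul a b (X : AddSubgroup V)) }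
    have hsmul : ∀ (g : G) (X : H), ((g • X : H) : AddSubgroup V) = g • (X : AddSubgroup V) :=
      fun _ _ => rfl
    have hcard : Nat.card H < Nat.card V := by
      let f : Option H → V := fun o => o.elim 0 (fun X => c X)
      have hf : Function.Injective f := by
        intro o o' h
        cases o with
        | none =>
          cases o' with
          | none => rfl
          | some Y => exact absurd h.symm (hc Y Y.2).2
        | some X =>
          cases o' with
          | none => exact absurd h (hc X X.2).2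
          | some Y =>
            have h' : c X = c Y := h
            congr 1
            apply Subtype.ext
            exact hI.eq_of_mem X.2 Y.2 (hc X X.2).2 (hc X X.2).1 (h' ▸ (hc Y Y.2).1)
      have h1 := Nat.card_le_card_of_injective f hf
      have h2 : Nat.card (Option H) = Nat.card H + 1 := Finite.card_option
      omega
    obtain ⟨Δ, -, hΔf, hΔ⟩ := ihp G φ hφ hO H (Or.inr ⟨le_refl _, hcard⟩) (by
      intro x hx
      have hxK : x ∈ K := fun X hX => by
        have := hx ⟨X, hX⟩
        exact congrArg Subtype.val this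
      have : φ x ∈ K.map φ := ⟨x, hxK, rfl⟩
      rw [hK] at this
      exact Subgroup.mem_bot.mp this)
    let s : Finset (AddSubgroup V) := hΔf.toFinset.image Subtype.val
    have hs : ∀ X, X ∈ s ↔ ∃ h : X ∈ H, (⟨X, h⟩ : H) ∈ Δ := by
      intro X
      simp only [s, Finset.mem_image, Set.Finite.mem_toFinset]
      constructor
      · rintro ⟨Y, hY, rfl⟩
        exact ⟨Y.2, hY⟩
      · rintro ⟨h, hX⟩
        exact ⟨⟨X, h⟩, hX, rfl⟩
    clear_value s
    refine ⟨∑ X ∈ s, c X, 0, fun htop' => hΔ ?_⟩
    refine map_top_mono ?_ htop'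
    rintro g ⟨hg, -⟩
    have hg' : g • (∑ X ∈ s, c X) = ∑ X ∈ s, c X := hg
    rw [Finset.smul_sum] at hg'
    have h1 : ∑ X ∈ s, g • c X = ∑ Y ∈ s.image (fun X => g • X), g • c (g⁻¹ • Y) := by
      rw [Finset.sum_image]
      · apply Finset.sum_congr rfl
        intro X _
        rw [inv_smul_smul]
      · intro X _ Y _ h
        exact smul_left_cancel g h
    have h2 : s.image (fun X => g • X) = s := by
      refine hI.support_unique _ _ (fun Y => g • c (g⁻¹ • Y)) c ?_ ?_ (h1 ▸ hg')
      · intro Y hY
        obtain ⟨X, hX, rfl⟩ := Finset.mem_image.mp hY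
        obtain ⟨hXH, -⟩ := (hs X).mp hX
        refine ⟨hinv g X hXH, ?_, ?_⟩
        · rw [inv_smul_smul]
          exact AddSubgroup.smul_mem_pointwise_smul _ _ _ (hc X hXH).1
        · rw [inv_smul_smul]
          intro h
          exact (hc X hXH).2 ((smul_eq_zero_iff_eq g).mp h)
      · intro X hX
        obtain ⟨hXH, -⟩ := (hs X).mp hX
        exact ⟨hXH, (hc X hXH).1, (hc X hXH).2⟩
    rw [MulAction.mem_stabilizer_iff]
    have h3 : ∀ X : H, X ∈ Δ → g • X ∈ Δ := by
      intro X hX
      have hXs : (X : AddSubgroup V) ∈ s := (hs X).mpr ⟨X.2, hX⟩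
      have : g • (X : AddSubgroup V) ∈ s := by
        rw [← h2]
        exact Finset.mem_image_of_mem _ hXs
      obtain ⟨h4, h5⟩ := (hs _).mp this
      exact h5
    have h4 : g • Δ ⊆ Δ := by
      rintro _ ⟨X, hX, rfl⟩
      exact h3 X hX
    exact Set.eq_of_subset_of_ncard_le h4 (by rw [Set.ncard_smul_set]) hΔf
  · -- some block
    obtain ⟨X, hX⟩ := block_lemma hT hK (ι := H)
      (fun X => { carrier := {g : G | ∀ x ∈ (X : AddSubgroup V), g • x = x}
                  one_mem' := fun x _ => one_smul _ _
                  mul_mem' := by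
                    intro a b ha hb x hx
                    rw [mul_smul, hb x hx, ha x hx]
                  inv_mem' := by
                    intro a ha x hx
                    rw [inv_smul_eq_iff, ha x hx] })
      (fun X => MulAction.stabilizer G (X : AddSubgroup V))
      (fun i g _ k hk => hKn g k hk)
      (by
        intro X g hg
        rw [MulAction.mem_stabilizer_iff]
        ext x
        rw [AddSubgroup.mem_pointwise_smul_iff_inv_smul_mem]
        have hg' : ∀ x ∈ (X : AddSubgroup V), g • x = x := hg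
        constructor
        · intro h
          have := hg' _ h
          rw [smul_inv_smul] at this
          rw [this]; exact h
        · intro h
          rw [inv_smul_eq_iff.mpr (hg' x h).symm]
          exact h)
      (by
        intro X k hk e he x hx
        have hk' : ∀ X ∈ H, k • X = X := hk
        have he' : ∀ x ∈ (X : AddSubgroup V), e • x = x := he
        have h1 : k⁻¹ • x ∈ (X : AddSubgroup V) := by
          rw [← AddSubgroup.mem_pointwise_smul_iff_inv_smul_mem, hk' X X.2]
          exact hx
        rw [mul_smul, mul_smul, he' _ h1, smul_inv_smul])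
      (by
        intro g _ hg
        apply hker
        intro X hX
        exact hg ⟨X, hX⟩)
    -- now apply the linear theorem to the block `X`
    set St : Subgroup G := MulAction.stabilizer G (X : AddSubgroup V) with hSt
    have hKSt : K ≤ St := by
      intro k hk
      rw [hSt, MulAction.mem_stabilizer_iff]
      exact hk X X.2
    have hStmap : St.map φ = ⊤ := map_top_mono hKSt hK
    have hSmem : ∀ g ∈ St, ∀ x ∈ (X : AddSubgroup V), g • x ∈ (X : AddSubgroup V) := by
      intro g hg x hx
      have hg' : g • (X : AddSubgroup V) = X := hg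
      rw [← hg']
      exact AddSubgroup.smul_mem_pointwise_smul _ _ _ hx
    let _ : DistribMulAction St (X : AddSubgroup V) :=
      { smul := fun g x => ⟨(g : G) • (x : V), hSmem g g.2 x x.2⟩
        one_smul := fun x => Subtype.ext (one_smul G (x : V))
        mul_smul := fun a b x => Subtype.ext (mul_smul (a : G) (b : G) (x : V))
        smul_zero := fun a => Subtype.ext (smul_zero (a : G))
        smul_add := fun a x y => Subtype.ext (smul_add (a : G) (x : V) (y : V)) }
    have hsm : ∀ (g : St) (x : (X : AddSubgroup V)), ((g • x : (X : AddSubgroup V)) : V)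
      = (g : G) • (x : V) := fun _ _ => rfl
    have hlt : Nat.card (X : AddSubgroup V) < Nat.card V := by
      rcases lt_or_eq_of_le (AddSubgroup.card_le_card_addGroup (X : AddSubgroup V)) with h | h
      · exact h
      · exact absurd (AddSubgroup.eq_top_of_card_eq _ h) (htop X X.2)
    obtain ⟨v₁, v₂, hv⟩ := ihl.apply hO St hStmap (X : AddSubgroup V) (Or.inr hlt) (by
      intro x hx
      apply hX
      intro y hy
      exact congrArg Subtype.val (hx ⟨y, hy⟩))
    refine ⟨v₁, v₂, fun htop' => hv ?_⟩
    have hne : (v₁ : V) ≠ 0 ∨ (v₂ : V) ≠ 0 := by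
      by_contra hcon
      push Not at hcon
      apply hv
      rw [← Subgroup.map_map]
      have : (MulAction.stabilizer St v₁ ⊓ MulAction.stabilizer St v₂) = ⊤ := by
        rw [eq_top_iff]
        intro g _
        refine Subgroup.mem_inf.mpr ⟨?_, ?_⟩
        · rw [MulAction.mem_stabilizer_iff]
          apply Subtype.ext
          rw [hsm, hcon.1, smul_zero]
        · rw [MulAction.mem_stabilizer_iff]
          apply Subtype.ext
          rw [hsm, hcon.2, smul_zero]
      rw [this]
      rw [← hStmap]
      congr 1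
      ext x
      simp
    have hmem : MulAction.stabilizer G (v₁ : V) ⊓ MulAction.stabilizer G (v₂ : V) ≤ St := by
      rintro g ⟨hg1, hg2⟩
      have hg1 : g • (v₁ : V) = v₁ := hg1
      have hg2 : g • (v₂ : V) = v₂ := hg2
      rw [hSt, MulAction.mem_stabilizer_iff]
      rcases hne with h | h
      · refine hI.eq_of_mem (hinv g X X.2) X.2 h ?_ v₁.2
        have := AddSubgroup.smul_mem_pointwise_smul (v₁ : V) g _ v₁.2
        rwa [hg1] at this
      · refine hI.eq_of_mem (hinv g X X.2) X.2 h ?_ v₂.2
        have := AddSubgroup.smul_mem_pointwise_smul (v₂ : V) g _ v₂.2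
        rwa [hg2] at this
    rw [← Subgroup.map_map]
    refine map_top_mono ?_ htop'
    rintro g hg
    refine ⟨⟨g, hmem hg⟩, Subgroup.mem_inf.mpr ⟨?_, ?_⟩, rfl⟩
    · rw [MulAction.mem_stabilizer_iff]
      apply Subtype.ext
      exact hg.1
    · rw [MulAction.mem_stabilizer_iff]
      apply Subtype.ext
      exact hg.2

end decomp

end Pool.Agent.TH82.BS
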