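import Pool.Agent.TH82.BS.NSMax

/-!
The family of normal subgroups with nonabelian simple quotient of a nonabelian chief factor.
-/

namespace Pool.Agent.TH82.BS

open scoped Pointwise commutatorElement

universe u

section family

variable {G : Type u} [Group G] [Finite G]

/-- The family of all normal subgroups of `M` containing `Z` with nonabelian simple quotient. -/
def family (M Z : Subgroup G) : Set (Subgroup M) := {C | NSMax C ∧ Z.subgroupOf M ≤ C}

omit [Finite G] in
theorem NSMax.smul {M : Subgroup G} [MulDistribMulAction G M] (g : G) {C : Subgroup M}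
    (h : NSMax C) : NSMax (g • C) := by
  have hnorm : ∀ (g : G) (K : Subgroup M), K.Normal → (g • K).Normal := by
    intro g K hK
    constructor
    intro x hx y
    rw [Subgroup.mem_pointwise_smul_iff_inv_smul_mem] at hx ⊢
    rw [smul_mul', smul_mul', smul_inv']
    exact hK.conj_mem _ hx _
  refine ⟨hnorm g C h.normal, ?_, ?_⟩
  · intro K hK hle
    have h1 : C ≤ g⁻¹ • K := by
      rw [Subgroup.subset_pointwise_smul_iff, inv_inv]
      exact hle
    rcases h.maximal _ (hnorm g⁻¹ K hK) h1 with h2 | h2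
    · left
      rw [← h2, smul_inv_smul]
    · right
      rw [eq_top_iff]
      intro x _
      have : g⁻¹ • x ∈ g⁻¹ • K := by rw [h2]; exact Subgroup.mem_top _
      exact (Subgroup.smul_mem_pointwise_smul_iff).mp this
  · intro hle
    apply h.nonab
    rw [Subgroup.commutator_le]
    intro a _ b _
    have h1 : ⁅g • a, g • b⁆ ∈ g • C :=
      hle (Subgroup.commutator_mem_commutator (Subgroup.mem_top _) (Subgroup.mem_top _))
    have h2 : ⁅g • a, g • b⁆ = g • ⁅a, b⁆ := by
      simp only [commutatorElement_def, smul_mul', smul_inv']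
    rw [h2] at h1
    exact (Subgroup.smul_mem_pointwise_smul_iff).mp h1

omit [Finite G] in
theorem family_inv (M Z : Subgroup G) (hZ : Z.Normal) [MulDistribMulAction G M]
    (hactM : ∀ (g : G) (m : M), ((g • m : M) : G) = g * m * g⁻¹) (g : G) (C : Subgroup M)
    (hC : C ∈ family M Z) : g • C ∈ family M Z := by
  refine ⟨hC.1.smul g, ?_⟩
  intro z hz
  rw [Subgroup.mem_pointwise_smul_iff_inv_smul_mem]
  apply hC.2
  rw [Subgroup.mem_subgroupOf] at hz ⊢
  rw [hactM]
  exact hZ.conj_mem _ hz _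

theorem family_inter (M Z : Subgroup G) (hM : M.Normal) (hZ : Z.Normal) (hZM : Z < M)
    (hmin : ∀ K : Subgroup G, K.Normal → Z ≤ K → K ≤ M → K = Z ∨ K = M)
    (hna : ¬ ∀ a ∈ M, ∀ b ∈ M, a * b * a⁻¹ * b⁻¹ ∈ Z) [MulDistribMulAction G M]
    (hactM : ∀ (g : G) (m : M), ((g • m : M) : G) = g * m * g⁻¹) :
    (family M Z).Nonempty ∧ ∀ m : M, (∀ C ∈ family M Z, m ∈ C) ↔ (m : G) ∈ Z := by
  classical
  have hne : (family M Z).Nonempty := by
    have hfin : ({C : Subgroup M | C.Normal ∧ Z.subgroupOf M ≤ C ∧ C ≠ ⊤}).Finite :=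
      Set.toFinite _
    have hnon : ({C : Subgroup M | C.Normal ∧ Z.subgroupOf M ≤ C ∧ C ≠ ⊤}).Nonempty := by
      refine ⟨Z.subgroupOf M, hZ.subgroupOf M, le_refl _, ?_⟩
      intro h
      rw [Subgroup.subgroupOf_eq_top] at h
      exact absurd h (not_le_of_gt hZM)
    obtain ⟨C, hC⟩ := hfin.exists_maximal hnon
    obtain ⟨hCn, hCZ, hCt⟩ := hC.prop
    refine ⟨C, ⟨hCn, ?_, ?_⟩, hCZ⟩
    · intro K hK hle
      by_cases hKt : K = ⊤
      · exact Or.inr hKt
      · left
        exact (hC.eq_of_le (show K ∈ _ from ⟨hK, hCZ.trans hle, hKt⟩) hle).symm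
    · intro hle
      have hn : (⁅M, M⁆ ⊔ Z).Normal := by
        have := hM; have := hZ
        infer_instance
      rcases hmin (⁅M, M⁆ ⊔ Z) hn le_sup_right
        (sup_le (Subgroup.commutator_le_left M M) hZM.le) with h | h
      · apply hna
        intro a ha b hb
        have h1 : ⁅a, b⁆ ∈ ⁅M, M⁆ ⊔ Z :=
          Subgroup.mem_sup_left (Subgroup.commutator_mem_commutator ha hb)
        rw [h, commutatorElement_def] at h1
        exact h1
      · apply hCt
        rw [eq_top_iff]
        rintro ⟨m, hm⟩ _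
        have h1 : ⁅M, M⁆ ⊔ Z ≤ C.map M.subtype := by
          refine sup_le ?_ ?_
          · have h2 : ⁅(⊤ : Subgroup M), (⊤ : Subgroup M)⁆.map M.subtype ≤ C.map M.subtype :=
              Subgroup.map_mono hle
            rw [Subgroup.map_commutator] at h2
            have h3 : (⊤ : Subgroup M).map M.subtype = M := by
              ext x; simp
            rw [h3] at h2
            exact h2
          · intro z hz
            exact ⟨⟨z, hZM.le hz⟩, hCZ (by rw [Subgroup.mem_subgroupOf]; exact hz), rfl⟩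
        have h2 : m ∈ ⁅M, M⁆ ⊔ Z := by rw [h]; exact hm
        obtain ⟨x, hx, hxm⟩ := h1 h2
        have : x = ⟨m, hm⟩ := Subtype.ext hxm
        rw [← this]
        exact hx
  refine ⟨hne, fun m => ⟨fun h => ?_, fun h C hC => hC.2 (by
    rw [Subgroup.mem_subgroupOf]; exact h)⟩⟩
  -- the intersection is normal in `G`
  let P : Subgroup G := (sInf (family M Z)).map M.subtype
  have hP : ∀ x : G, x ∈ P ↔ ∃ hx : x ∈ M, ∀ C ∈ family M Z, (⟨x, hx⟩ : M) ∈ C := by
    intro x
    constructor
    · rintro ⟨y, hy, rfl⟩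
      refine ⟨y.2, ?_⟩
      intro C hC
      exact (Subgroup.mem_sInf.mp hy) C hC
    · rintro ⟨hx, hx'⟩
      exact ⟨⟨x, hx⟩, Subgroup.mem_sInf.mpr hx', rfl⟩
  have hPn : P.Normal := by
    constructor
    intro x hx g
    rw [hP] at hx ⊢
    obtain ⟨hxM, hx'⟩ := hx
    refine ⟨hM.conj_mem x hxM g, ?_⟩
    intro C hC
    have h1 := hx' _ (family_inv M Z hZ hactM g⁻¹ C hC)
    rw [Subgroup.mem_pointwise_smul_iff_inv_smul_mem, inv_inv] at h1
    have h2 : (g • (⟨x, hxM⟩ : M)) = ⟨g * x * g⁻¹, hM.conj_mem x hxM g⟩ :=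
      Subtype.ext (hactM g ⟨x, hxM⟩)
    rw [h2] at h1
    exact h1
  rcases hmin P hPn (by
      intro z hz
      rw [hP]
      exact ⟨hZM.le hz, fun C hC => hC.2 (by rw [Subgroup.mem_subgroupOf]; exact hz)⟩)
    (by
      intro x hx
      rw [hP] at hx
      exact hx.1) with h1 | h1
  · rw [← h1, hP]
    exact ⟨m.2, h⟩
  · exfalso
    obtain ⟨C, hC⟩ := hne
    apply hC.1.ne_top
    rw [eq_top_iff]
    rintro ⟨x, hx⟩ _
    have : x ∈ P := by rw [h1]; exact hx
    rw [hP] at this
    exact this.2 C hC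

end family

end Pool.Agent.TH82.BS
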