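import Pool.Agent.TH82.BS.Decomp

/-!
Depth-two subnormal subgroups act trivially or without fixed points (in a minimal
counterexample), and abelian normal subgroups are cyclic.
-/

namespace Pool.Agent.TH82.BS

open scoped Pointwise

universe u

section fix

variable {G : Type u} [Group G]
variable {V : Type u} [AddCommGroup V] [DistribMulAction G V]

/-- vectors fixed by `K` -/
def fixv (V : Type u) [AddCommGroup V] [DistribMulAction G V] (K : Subgroup G) :
    AddSubgroup V where
  carrier := {v | ∀ k ∈ K, k • v = v}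
  zero_mem' := fun k _ => smul_zero k
  add_mem' := by
    intro a b ha hb k hk
    rw [smul_add, ha k hk, hb k hk]
  neg_mem' := by
    intro a ha k hk
    rw [smul_neg, ha k hk]

theorem mem_fixv {K : Subgroup G} {v : V} : v ∈ fixv V K ↔ ∀ k ∈ K, k • v = v := Iff.rfl

theorem smul_fixv (g : G) (K : Subgroup G) :
    g • fixv V K = fixv V (MulAut.conj g • K) := by
  ext v
  rw [AddSubgroup.mem_pointwise_smul_iff_inv_smul_mem, mem_fixv, mem_fixv]
  constructor
  · intro h k hk
    rw [Subgroup.mem_pointwise_smul_iff_inv_smul_mem] at hk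
    have hk' : g⁻¹ * k * g ∈ K := by simpa [← map_inv] using hk
    have := h _ hk'
    rw [mul_smul, mul_smul, smul_inv_smul, smul_left_cancel_iff] at this
    exact this
  · intro h k hk
    have hk' : g * k * g⁻¹ ∈ MulAut.conj g • K := by
      rw [Subgroup.mem_pointwise_smul_iff_inv_smul_mem]
      simpa [← map_inv, mul_assoc] using hk
    have := h _ hk'
    rw [mul_smul, mul_smul] at this
    rw [eq_inv_smul_iff]
    exact this

theorem fixv_sup (K K' : Subgroup G) : fixv V K ⊓ fixv V K' ≤ fixv V (K ⊔ K') := by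
  rintro v ⟨h1, h2⟩
  have h1 : ∀ k ∈ K, k • v = v := h1
  have h2 : ∀ k ∈ K', k • v = v := h2
  have : K ⊔ K' ≤ MulAction.stabilizer G v := sup_le (fun k hk => h1 k hk) (fun k hk => h2 k hk)
  exact fun k hk => this hk

end fix

section fixlemma

variable {T : Type u} [Group T] [IsSimpleGroup T]
variable {G : Type u} [Group G] [Finite G]
variable {V : Type u} [AddCommGroup V] [Finite V] [DistribMulAction G V]

theorem fix_lemma (hT : ¬ ∀ a b : T, a * b = b * a) (φ : G →* T)
    (hφ : Function.Surjective φ) (hO : OutFree φ)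
    (ihp : IHP T (Nat.card G) (Nat.card V)) (ihl : IHL T (Nat.card G) (Nat.card V))
    (hfaith : ∀ g : G, (∀ v : V, g • v = v) → g = 1)
    (hirr : ∀ W : AddSubgroup V, (∀ g : G, ∀ w ∈ W, g • w ∈ W) → W = ⊥ ∨ W = ⊤)
    (hbad : ¬ LinConcl φ V)
    (A : Subgroup G) (hA : A.Normal) (K : Subgroup G) (hKA : K ≤ A)
    (hK : ∀ a ∈ A, ∀ k ∈ K, a * k * a⁻¹ ∈ K) (hfix : ∃ v : V, v ≠ 0 ∧ ∀ k ∈ K, k • v = v) :
    K = ⊥ := by
  classical
  set 𝒦 : Set (Subgroup G) := {K | K ≤ A ∧ (∀ a ∈ A, ∀ k ∈ K, a * k * a⁻¹ ∈ K) ∧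
    ∃ v : V, v ≠ 0 ∧ ∀ k ∈ K, k • v = v} with h𝒦
  have hK𝒦 : K ∈ 𝒦 := ⟨hKA, hK, hfix⟩
  obtain ⟨K₁, hKK₁, hK₁⟩ := (Set.toFinite 𝒦).exists_le_maximal hK𝒦
  -- conjugation invariance
  have hconj : ∀ g : G, ∀ L ∈ 𝒦, MulAut.conj g • L ∈ 𝒦 := by
    rintro g L ⟨h1, h2, v, hv, hv'⟩
    refine ⟨?_, ?_, g • v, ?_, ?_⟩
    · rintro _ ⟨l, hl, rfl⟩
      exact hA.conj_mem l (h1 hl) g
    · intro a ha k hk
      rw [Subgroup.mem_pointwise_smul_iff_inv_smul_mem] at hk ⊢
      have hk' : g⁻¹ * k * g ∈ L := by simpa [← map_inv] using hk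
      have ha' : g⁻¹ * a * g ∈ A := by simpa using hA.conj_mem a ha g⁻¹
      have := h2 _ ha' _ hk'
      have e : g⁻¹ * a * g * (g⁻¹ * k * g) * (g⁻¹ * a * g)⁻¹ = g⁻¹ * (a * k * a⁻¹) * g := by
        group
      rw [e] at this
      have h9 : (MulAut.conj g)⁻¹ • (a * k * a⁻¹) = g⁻¹ * (a * k * a⁻¹) * g := by
        rw [← map_inv, MulAut.smul_def, MulAut.conj_apply, inv_inv]
      rw [h9]
      exact this
    · intro h
      exact hv ((smul_eq_zero_iff_eq g).mp h)
    · have h3 : v ∈ fixv V L := hv'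
      have h4 : g • v ∈ g • fixv V L := AddSubgroup.smul_mem_pointwise_smul _ _ _ h3
      rw [smul_fixv] at h4
      exact h4
  have hmaxconj : ∀ g : G, ∀ L, Maximal (· ∈ 𝒦) L → Maximal (· ∈ 𝒦) (MulAut.conj g • L) := by
    intro g L hL
    refine ⟨hconj g L hL.prop, ?_⟩
    intro L' hL' hle
    have h1 : L ≤ MulAut.conj g⁻¹ • L' := by
      rw [map_inv, Subgroup.subset_pointwise_smul_iff, inv_inv]
      exact hle
    have h2 := hL.le_of_ge (hconj g⁻¹ L' hL') h1
    rw [map_inv, Subgroup.pointwise_smul_subset_iff, inv_inv] at h2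
    exact h2
  let H : Set (AddSubgroup V) := {X | ∃ L, Maximal (· ∈ 𝒦) L ∧ X = fixv V L}
  have hHinv : ∀ g : G, ∀ X ∈ H, g • X ∈ H := by
    rintro g X ⟨L, hL, rfl⟩
    exact ⟨MulAut.conj g • L, hmaxconj g L hL, smul_fixv g L⟩
  have hHbot : ∀ X ∈ H, X ≠ ⊥ := by
    rintro X ⟨L, hL, rfl⟩ h
    obtain ⟨-, -, v, hv, hv'⟩ := hL.prop
    have : v ∈ fixv V L := hv'
    rw [h, AddSubgroup.mem_bot] at this
    exact hv this
  -- two distinct maximal elements
  have hdisj : ∀ L L', Maximal (· ∈ 𝒦) L → Maximal (· ∈ 𝒦) L' → L ≠ L' →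
      ∀ v ∈ fixv V L, v ≠ 0 → v ∉ fixv V L' := by
    intro L L' hL hL' hne v hv hv0 hv'
    have hsup : L ⊔ L' ∈ 𝒦 := by
      refine ⟨sup_le hL.prop.1 hL'.prop.1, ?_, v, hv0, fixv_sup L L' ⟨hv, hv'⟩⟩
      intro a ha k hk
      have h1 : MulAut.conj a • (L ⊔ L') ≤ L ⊔ L' := by
        rw [Subgroup.smul_sup]
        refine sup_le ?_ ?_
        · refine le_trans ?_ le_sup_left
          rintro _ ⟨l, hl, rfl⟩
          exact hL.prop.2.1 a ha l hl
        · refine le_trans ?_ le_sup_right
          rintro _ ⟨l, hl, rfl⟩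
          exact hL'.prop.2.1 a ha l hl
      exact h1 ⟨k, hk, rfl⟩
    have h1 := hL.eq_of_le hsup le_sup_left
    have h2 := hL'.eq_of_le hsup le_sup_right
    exact hne (h1.trans h2.symm)
  have hHI : Ind H := by
    apply ind_of_separation
    rintro X ⟨L, hL, rfl⟩ Y ⟨L', hL', rfl⟩ hXY x hx hx0
    have hne : L ≠ L' := fun h => hXY (by rw [h])
    have h1 := hdisj L L' hL hL' hne x hx hx0
    rw [mem_fixv] at h1
    push Not at h1
    obtain ⟨k, hk, hkx⟩ := h1
    refine ⟨DistribSMul.toAddMonoidHom V k - AddMonoidHom.id V, ?_, ?_, ?_⟩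
    · rintro Z ⟨L'', hL'', rfl⟩ z hz
      simp only [AddMonoidHom.sub_apply, DistribSMul.toAddMonoidHom_apply,
        AddMonoidHom.id_apply]
      apply AddSubgroup.sub_mem _ _ hz
      intro l hl
      have hkA : k ∈ A := hL'.prop.1 hk
      have h2 : k⁻¹ * l * k ∈ L'' := by
        have := hL''.prop.2.1 k⁻¹ (A.inv_mem hkA) l hl
        simpa using this
      have h3 := hz _ h2
      rw [mul_smul, mul_smul, inv_smul_eq_iff] at h3
      exact h3
    · intro y hy
      simp only [AddMonoidHom.sub_apply, DistribSMul.toAddMonoidHom_apply,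
        AddMonoidHom.id_apply]
      rw [hy k hk, sub_self]
    · simp only [AddMonoidHom.sub_apply, DistribSMul.toAddMonoidHom_apply,
        AddMonoidHom.id_apply]
      intro h
      exact hkx (sub_eq_zero.mp h)
  -- the top case
  by_cases htop : fixv V K₁ = ⊤
  · have : K₁ = ⊥ := by
      rw [Subgroup.eq_bot_iff_forall]
      intro k hk
      apply hfaith
      intro v
      have : v ∈ fixv V K₁ := by rw [htop]; exact AddSubgroup.mem_top v
      exact this k hk
    rw [this] at hKK₁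
    exact le_bot_iff.mp hKK₁
  · exfalso
    apply hbad
    have hK₁H : fixv V K₁ ∈ H := ⟨K₁, hK₁, rfl⟩
    refine decomp_lemma hT φ hφ hO ihp ihl H hHinv hHbot ?_ hHI ?_
    · intro X hX hXtop
      obtain ⟨x, hx, hx0⟩ := (AddSubgroup.bot_or_exists_ne_zero _).resolve_left (hHbot _ hK₁H)
      have : X = fixv V K₁ := hHI.eq_of_mem hX hK₁H hx0 (by rw [hXtop]; exact AddSubgroup.mem_top x) hx
      exact htop (this ▸ hXtop)
    · intro g hg
      -- the set of vectors fixed by the pointwise stabilizer of all members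
      let E : Subgroup G :=
        { carrier := {g | ∀ X ∈ H, ∀ x ∈ X, g • x = x}
          one_mem' := fun X _ x _ => one_smul _ _
          mul_mem' := by
            intro a b ha hb X hX x hx
            rw [mul_smul, hb X hX x hx, ha X hX x hx]
          inv_mem' := by
            intro a ha X hX x hx
            rw [inv_smul_eq_iff, ha X hX x hx] }
      have hEn : ∀ g : G, ∀ e ∈ E, g * e * g⁻¹ ∈ E := by
        intro g e he X hX x hx
        have h1 : g⁻¹ • x ∈ g⁻¹ • X := AddSubgroup.smul_mem_pointwise_smul _ _ _ hx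
        rw [mul_smul, mul_smul, he _ (hHinv g⁻¹ X hX) _ h1, smul_inv_smul]
      have hfixE : fixv V E = ⊤ := by
        refine (hirr (fixv V E) ?_).resolve_left ?_
        · intro g w hw e he
          have h1 := hw _ (hEn g⁻¹ e he)
          rw [mul_smul, mul_smul, inv_inv, inv_smul_eq_iff] at h1
          exact h1
        · intro h
          obtain ⟨x, hx, hx0⟩ := (AddSubgroup.bot_or_exists_ne_zero _).resolve_left
            (hHbot _ hK₁H)
          have : x ∈ fixv V E := fun e he => he _ hK₁H x hx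
          rw [h, AddSubgroup.mem_bot] at this
          exact hx0 this
      have hgE : g ∈ E := hg
      have : g = 1 := by
        apply hfaith
        intro v
        have : v ∈ fixv V E := by rw [hfixE]; exact AddSubgroup.mem_top v
        exact this g hgE
      rw [this, map_one]

end fixlemma

end Pool.Agent.TH82.BS
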