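import Pool.Agent.TH82.BS.NAApply
import Pool.Agent.TH82.BS.Abel
import Pool.Agent.TH82.BS.SymplFinal
import Pool.Agent.TH350.J81

/-!
The induction step of the linear theorem.
-/

namespace Pool.Agent.TH82.BS

open scoped Pointwise commutatorElement

universe u

theorem NSMax.le_of_commutator_le {M : Type u} [Group M] {C : Subgroup M} (hC : NSMax C)
    {K : Subgroup M} (hK : K.Normal) (h : ⁅K, K⁆ ≤ C) : K ≤ C := by
  by_contra hKC
  have hCn := hC.normal
  have h1 := sup_eq_top_of_normalized hC (D := ⊤) (by simp) (A := K)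
    (fun d _ a ha => hK.conj_mem a ha d) hKC
  apply hC.nonab
  have hmap : K.map (QuotientGroup.mk' C) = ⊤ := by
    have : (K ⊔ C).map (QuotientGroup.mk' C) = ⊤ := by
      rw [h1]
      exact Subgroup.map_top_of_surjective _ (QuotientGroup.mk'_surjective C)
    rw [Subgroup.map_sup, (Subgroup.map_eq_bot_iff C).mpr (QuotientGroup.ker_mk' C).ge,
      sup_bot_eq] at this
    exact this
  have h4 : (⁅(⊤ : Subgroup M), (⊤ : Subgroup M)⁆).map (QuotientGroup.mk' C) = ⊥ := by
    rw [Subgroup.map_commutator, Subgroup.map_top_of_surjective _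
      (QuotientGroup.mk'_surjective C), ← hmap, ← Subgroup.map_commutator]
    exact (Subgroup.map_eq_bot_iff _).mpr (h.trans (QuotientGroup.ker_mk' C).ge)
  have h5 := (Subgroup.map_eq_bot_iff _).mp h4
  rwa [QuotientGroup.ker_mk'] at h5

variable {T : Type u} [Group T] [IsSimpleGroup T]
variable {G : Type u} [Group G] [Finite G]

/-- Reduction to irreducible modules. -/
theorem irreducible_of_bad (hT : ¬ ∀ a b : T, a * b = b * a) (φ : G →* T)
    (hφ : Function.Surjective φ) (hO : OutFree φ)
    (V : Type u) [AddCommGroup V] [DistribMulAction G V] [Finite V]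
    (ihl : IHL T (Nat.card G) (Nat.card V))
    (hfaith : ∀ g : G, (∀ v : V, g • v = v) → g = 1) (hbad : ¬ LinConcl φ V)
    (W : AddSubgroup V) (hW : ∀ g : G, ∀ w ∈ W, g • w ∈ W) : W = ⊥ ∨ W = ⊤ := by
  classical
  by_contra hcon
  push Not at hcon
  obtain ⟨hWb, hWt⟩ := hcon
  have hφ' : (⊤ : Subgroup G).map φ = ⊤ := by
    rw [← MonoidHom.range_eq_map]; exact MonoidHom.range_eq_top.mpr hφ
  -- centralizer of `W`
  let A : Subgroup G :=
    { carrier := {g | ∀ w ∈ W, g • w = w}
      one_mem' := fun w _ => one_smul _ _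
      mul_mem' := by
        intro a b ha hb w hw
        rw [mul_smul, hb w hw, ha w hw]
      inv_mem' := by
        intro a ha w hw
        rw [inv_smul_eq_iff, ha w hw] }
  have hAn : ∀ g : G, ∀ a ∈ A, g * a * g⁻¹ ∈ A := by
    intro g a ha w hw
    rw [mul_smul, mul_smul, ha _ (hW g⁻¹ w hw), smul_inv_smul]
  let B : Subgroup G :=
    { carrier := {g | ∀ v : V, g • v - v ∈ W}
      one_mem' := fun v => by rw [one_smul, sub_self]; exact W.zero_mem
      mul_mem' := by
        intro a b ha hb v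
        have e : (a * b) • v - v = (a • (b • v) - b • v) + (b • v - v) := by
          rw [mul_smul]; abel
        rw [e]
        exact W.add_mem (ha _) (hb _)
      inv_mem' := by
        intro a ha v
        have e : a⁻¹ • v - v = -(a • (a⁻¹ • v) - a⁻¹ • v) := by
          rw [smul_inv_smul]; abel
        rw [e]
        exact W.neg_mem (ha _) }
  have hBn : ∀ g : G, ∀ b ∈ B, g * b * g⁻¹ ∈ B := by
    intro g b hb v
    have e : (g * b * g⁻¹) • v - v = g • (b • (g⁻¹ • v) - g⁻¹ • v) := by
      rw [mul_smul, mul_smul, smul_sub, smul_inv_smul]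
    rw [e]
    exact hW g _ (hb _)
  have hWlt : Nat.card W < Nat.card V := by
    rcases lt_or_eq_of_le (AddSubgroup.card_le_card_addGroup W) with h | h
    · exact h
    · exact absurd (AddSubgroup.eq_top_of_card_eq _ h) hWt
  rcases map_eq_bot_or_top (A := A) hφ' (fun k _ a ha => hAn k a ha) with hA | hA
  · let _ : DistribMulAction G W :=
      { smul := fun g x => ⟨g • (x : V), hW g x x.2⟩
        one_smul := fun x => Subtype.ext (one_smul G (x : V))
        mul_smul := fun a b x => Subtype.ext (mul_smul a b (x : V))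
        smul_zero := fun a => Subtype.ext (smul_zero a)
        smul_add := fun a x y => Subtype.ext (smul_add a (x : V) (y : V)) }
    obtain ⟨w₁, w₂, hw⟩ := ihl G φ hφ hO W (Or.inr ⟨le_refl _, hWlt⟩) (by
      intro x hx
      have hxA : x ∈ A := fun w hw => congrArg Subtype.val (hx ⟨w, hw⟩)
      have : φ x ∈ A.map φ := ⟨x, hxA, rfl⟩
      rw [hA] at this
      exact Subgroup.mem_bot.mp this)
    apply hbad
    refine ⟨w₁, w₂, fun h => hw ?_⟩
    refine map_top_mono ?_ h
    intro g hg
    exact Subgroup.mem_inf.mpr ⟨Subtype.ext hg.1, Subtype.ext hg.2⟩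
  rcases map_eq_bot_or_top (A := B) hφ' (fun k _ a ha => hBn k a ha) with hB | hB
  · let act : G → (V ⧸ W →+ V ⧸ W) := fun g =>
      QuotientAddGroup.map W W (DistribSMul.toAddMonoidHom V g) (fun w hw => hW g w hw)
    have hact : ∀ (g : G) (v : V), act g (QuotientAddGroup.mk' W v) =
      QuotientAddGroup.mk' W (g • v) := fun g v => rfl
    let _ : DistribMulAction G (V ⧸ W) :=
      { smul := fun g x => act g x
        one_smul := by
          intro x
          obtain ⟨v, rfl⟩ := QuotientAddGroup.mk'_surjective W x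
          change act 1 _ = _
          rw [hact, one_smul]
        mul_smul := by
          intro a b x
          obtain ⟨v, rfl⟩ := QuotientAddGroup.mk'_surjective W x
          change act (a * b) _ = act a (act b _)
          rw [hact, hact, hact, mul_smul]
        smul_zero := fun a => map_zero (act a)
        smul_add := fun a x y => map_add (act a) x y }
    have hsm : ∀ (g : G) (v : V), g • (QuotientAddGroup.mk' W v) =
      QuotientAddGroup.mk' W (g • v) := fun g v => rfl
    have hlt : Nat.card (V ⧸ W) < Nat.card V := by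
      have h1 := AddSubgroup.card_eq_card_quotient_mul_card_addSubgroup W
      have h2 : 1 < Nat.card W := by
        rw [AddSubgroup.one_lt_card_iff_ne_bot]
        exact hWb
      have h3 : 0 < Nat.card (V ⧸ W) := Nat.card_pos
      rw [h1]
      nlinarith
    obtain ⟨x₁, x₂, hx⟩ := ihl G φ hφ hO (V ⧸ W) (Or.inr ⟨le_refl _, hlt⟩) (by
      intro x hx
      have hxB : x ∈ B := by
        intro v
        have h1 := hx (QuotientAddGroup.mk' W v)
        rw [hsm] at h1
        have h2 : QuotientAddGroup.mk' W (x • v - v) = 0 := by rw [map_sub, h1, sub_self]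
        exact (QuotientAddGroup.eq_zero_iff _).mp h2
      have : φ x ∈ B.map φ := ⟨x, hxB, rfl⟩
      rw [hB] at this
      exact Subgroup.mem_bot.mp this)
    obtain ⟨v₁, rfl⟩ := QuotientAddGroup.mk'_surjective W x₁
    obtain ⟨v₂, rfl⟩ := QuotientAddGroup.mk'_surjective W x₂
    apply hbad
    refine ⟨v₁, v₂, fun h => hx ?_⟩
    refine map_top_mono ?_ h
    intro g hg
    have hg1 : g • v₁ = v₁ := hg.1
    have hg2 : g • v₂ = v₂ := hg.2
    refine Subgroup.mem_inf.mpr ⟨?_, ?_⟩
    · rw [MulAction.mem_stabilizer_iff, hsm, hg1]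
    · rw [MulAction.mem_stabilizer_iff, hsm, hg2]
  · have h1 := map_commutator_eq_top hT hA hB
    have h2 : ⁅A, B⁆ ≤ A ⊓ B := by
      rw [Subgroup.commutator_le]
      intro a ha b hb
      refine ⟨?_, ?_⟩
      · have : ⁅a, b⁆ = a * (b * a⁻¹ * b⁻¹) := by rw [commutatorElement_def]; group
        rw [this]
        exact A.mul_mem ha (hAn b _ (A.inv_mem ha))
      · rw [commutatorElement_def]
        exact B.mul_mem (hBn a b hb) (B.inv_mem hb)
    have h3 := map_top_mono h2 h1
    have h4 : ⁅A ⊓ B, A ⊓ B⁆ ≤ ⊥ := by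
      rw [Subgroup.commutator_le]
      rintro a ⟨ha, ha'⟩ b ⟨hb, hb'⟩
      rw [Subgroup.mem_bot]
      have key : ∀ v : V, a • (b • v) = b • (a • v) := by
        intro v
        have e1 : a • (b • v - v) = b • v - v := ha _ (hb' v)
        have e2 : b • (a • v - v) = a • v - v := hb _ (ha' v)
        rw [smul_sub, sub_eq_iff_eq_add] at e1 e2
        rw [e1, e2]
        abel
      rw [commutatorElement_eq_one_iff_mul_comm]
      have : (b * a)⁻¹ * (a * b) = 1 := by
        apply hfaith
        intro v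
        rw [mul_smul, inv_smul_eq_iff, mul_smul, mul_smul, key]
      exact (inv_mul_eq_one.mp this).symm
    have h5 := map_eq_top_of_commutator_le hT h3 h4
    rw [Subgroup.map_bot] at h5
    obtain ⟨t, ht⟩ := exists_ne (1 : T)
    apply ht
    have : t ∈ (⊥ : Subgroup T) := by rw [h5]; exact Subgroup.mem_top t
    exact Subgroup.mem_bot.mp this

theorem lin_step (hT : ¬ ∀ a b : T, a * b = b * a) (φ : G →* T)
    (hφ : Function.Surjective φ) (hO : OutFree φ)
    (V : Type u) [AddCommGroup V] [DistribMulAction G V] [Finite V]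
    (ihp : IHP T (Nat.card G) (Nat.card V)) (ihl : IHL T (Nat.card G) (Nat.card V))
    (hker : ∀ x : G, (∀ v : V, x • v = v) → φ x = 1) : LinConcl φ V := by
  classical
  by_cases hnf : ∃ g : G, g ≠ 1 ∧ ∀ v : V, g • v = v
  · exact lin_of_nonfaithful φ hφ hO V ihl hker hnf
  have hfaith : ∀ x : G, (∀ v : V, x • v = v) → x = 1 := by
    intro x hx
    by_contra hx1
    exact hnf ⟨x, hx1, hx⟩
  by_contra hbad
  have hst : ∀ v₁ v₂ : V, (MulAction.stabilizer G v₁ ⊓ MulAction.stabilizer G v₂).map φ = ⊤ := by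
    intro v₁ v₂
    by_contra h
    exact hbad ⟨v₁, v₂, h⟩
  have hφ' : (⊤ : Subgroup G).map φ = ⊤ := by
    rw [← MonoidHom.range_eq_map]; exact MonoidHom.range_eq_top.mpr hφ
  have hirr := irreducible_of_bad hT φ hφ hO V ihl hfaith hbad
  -- perfect
  have hperf : ⁅(⊤ : Subgroup G), (⊤ : Subgroup G)⁆ = ⊤ := by
    by_contra hne
    set H := ⁅(⊤ : Subgroup G), (⊤ : Subgroup G)⁆ with hH
    have hHmap : H.map φ = ⊤ := map_commutator_eq_top hT hφ' hφ'
    have hlt : Nat.card H < Nat.card G := by
      rcases lt_or_eq_of_le (Subgroup.card_le_card_group H) with h | h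
      · exact h
      · exact absurd (Subgroup.eq_top_of_card_eq H h) hne
    obtain ⟨v₁, v₂, hv⟩ := ihl.apply hO H hHmap V (Or.inl hlt) (fun x hx => hker x hx)
    apply hv
    rw [← Subgroup.map_map]
    refine map_eq_top_of_commutator_le hT (hst v₁ v₂) ?_
    intro g hg
    have hgH : g ∈ H := Subgroup.commutator_mono le_top le_top hg
    have hgJ : g ∈ MulAction.stabilizer G v₁ ⊓ MulAction.stabilizer G v₂ :=
      Subgroup.commutator_le_self _ hg
    exact ⟨⟨g, hgH⟩, Subgroup.mem_inf.mpr ⟨hgJ.1, hgJ.2⟩, rfl⟩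
  obtain ⟨t₀, ht₀⟩ : ∃ t : T, t ≠ 1 := exists_ne 1
  obtain ⟨g₀, hg₀⟩ := hφ t₀
  have hg₀1 : g₀ ≠ 1 := fun h => ht₀ (by rw [← hg₀, h, map_one])
  have hVnt : Nontrivial V := by
    by_contra hcon
    rw [not_nontrivial_iff_subsingleton] at hcon
    exact hg₀1 (hfaith g₀ (fun v => Subsingleton.elim _ _))
  obtain ⟨v₀, hv₀⟩ := exists_ne (0 : V)
  -- no nonzero vector is fixed by `G`
  have hnofix : ∀ v : V, (∀ g : G, g • v = v) → v = 0 := by
    intro v hv
    by_contra hv0
    have h1 : fixv V (⊤ : Subgroup G) = ⊤ := by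
      refine (hirr (fixv V ⊤) ?_).resolve_left ?_
      · intro g w hw k _
        rw [hw g (Subgroup.mem_top g)]
        exact hw k (Subgroup.mem_top k)
      · intro h
        have : v ∈ fixv V (⊤ : Subgroup G) := fun k _ => hv k
        rw [h, AddSubgroup.mem_bot] at this
        exact hv0 this
    apply hg₀1
    apply hfaith
    intro w
    have : w ∈ fixv V (⊤ : Subgroup G) := by rw [h1]; exact AddSubgroup.mem_top w
    exact this g₀ (Subgroup.mem_top _)
  have habc : ∀ A : Subgroup G, A.Normal → (∀ a ∈ A, ∀ b ∈ A, a * b = b * a) →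
      A ≤ Subgroup.center G := by
    intro A hA hab
    exact central_of_cyclic_normal hperf A hA
      (abelian_normal_cyclic hT φ hφ hO ihp ihl hfaith hirr hbad A hA hab)
  have hZcyc : IsCyclic (Subgroup.center G) :=
    abelian_normal_cyclic hT φ hφ hO ihp ihl hfaith hirr hbad _ inferInstance
      (fun a ha b _ => (Subgroup.mem_center_iff.mp ha b).symm)
  have hZfree : ∀ z ∈ Subgroup.center G, ∀ v : V, v ≠ 0 → z • v = v → z = 1 := by
    intro z hz v hv hzv
    have h1 : Subgroup.zpowers z = ⊥ := by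
      refine fix_lemma hT φ hφ hO ihp ihl hfaith hirr hbad (Subgroup.center G) inferInstance _
        ?_ ?_ ⟨v, hv, ?_⟩
      · rw [Subgroup.zpowers_le]; exact hz
      · rintro b hb k hk
        have : b * k * b⁻¹ = k := by
          rw [← Subgroup.mem_center_iff.mp hb k]; group
        rw [this]; exact hk
      · have h5 : Subgroup.zpowers z ≤ MulAction.stabilizer G v := by
          rw [Subgroup.zpowers_le]
          exact hzv
        exact fun k hk => h5 hk
    rwa [Subgroup.zpowers_eq_bot] at h1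
  have hZker : Subgroup.center G ≤ φ.ker := by
    intro z hz
    rw [MonoidHom.mem_ker]
    refine eq_one_of_commute hT hφ' ?_
    intro k _
    rw [Subgroup.mem_center_iff.mp hz k]
  have hZne : Subgroup.center G ≠ φ.ker := by
    intro hZ
    set J := MulAction.stabilizer G v₀ ⊓ MulAction.stabilizer G v₀ with hJ
    have hJtop : ∀ g : G, ∃ j ∈ J, ∃ z ∈ Subgroup.center G, g = j * z := by
      intro g
      have h1 : φ g ∈ J.map φ := by rw [hst v₀ v₀]; exact Subgroup.mem_top _
      obtain ⟨j, hj, hjg⟩ := h1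
      refine ⟨j, hj, j⁻¹ * g, ?_, by group⟩
      rw [hZ, MonoidHom.mem_ker, map_mul, map_inv, hjg, inv_mul_cancel]
    have h2 : ⁅(⊤ : Subgroup G), (⊤ : Subgroup G)⁆ ≤ J := by
      rw [Subgroup.commutator_le]
      intro a _ b _
      obtain ⟨j, hj, z, hz, rfl⟩ := hJtop a
      obtain ⟨j', hj', z', hz', rfl⟩ := hJtop b
      have hz1 := Subgroup.mem_center_iff.mp hz
      have hz2 := Subgroup.mem_center_iff.mp hz'
      have : ⁅j * z, j' * z'⁆ = ⁅j, j'⁆ := by
        rw [commutatorElement_def, commutatorElement_def]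
        calc j * z * (j' * z') * (j * z)⁻¹ * (j' * z')⁻¹
            = j * z * (j' * z') * (z⁻¹ * j⁻¹) * (z'⁻¹ * j'⁻¹) := by
              rw [mul_inv_rev, mul_inv_rev]
          _ = j * (z * (j' * z')) * z⁻¹ * j⁻¹ * z'⁻¹ * j'⁻¹ := by group
          _ = j * ((j' * z') * z) * z⁻¹ * j⁻¹ * z'⁻¹ * j'⁻¹ := by rw [← hz1 (j' * z')]
          _ = j * j' * (z' * j⁻¹) * z'⁻¹ * j'⁻¹ := by group
          _ = j * j' * (j⁻¹ * z') * z'⁻¹ * j'⁻¹ := by rw [← hz2 j⁻¹]
          _ = j * j' * j⁻¹ * j'⁻¹ := by group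
      rw [this, commutatorElement_def]
      exact J.mul_mem (J.mul_mem (J.mul_mem hj hj') (J.inv_mem hj)) (J.inv_mem hj')
    rw [hperf] at h2
    apply hv₀
    apply hnofix
    intro g
    exact (h2 (Subgroup.mem_top g)).1
  obtain ⟨M, hM⟩ := (Set.toFinite {K : Subgroup G | K.Normal ∧ Subgroup.center G < K ∧
    K ≤ φ.ker}).exists_minimal ⟨φ.ker, inferInstance, lt_of_le_of_ne hZker hZne, le_refl _⟩
  obtain ⟨hMn, hZM, hMker⟩ := hM.prop
  have hmin : ∀ K : Subgroup G, K.Normal → Subgroup.center G ≤ K → K ≤ M →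
      K = Subgroup.center G ∨ K = M := by
    intro K hK hZK hKM
    by_cases hKb : K = Subgroup.center G
    · exact Or.inl hKb
    · exact Or.inr (hM.eq_of_le
        (show K ∈ _ from ⟨hK, lt_of_le_of_ne hZK (Ne.symm hKb), hKM.trans hMker⟩) hKM)
  have hMne : ¬ ∀ a ∈ M, ∀ b ∈ M, a * b = b * a := fun h =>
    absurd (habc M hMn h) (not_le_of_gt hZM)
  have hCn : (Subgroup.centralizer (M : Set G)).Normal := inferInstance
  have IH : ∀ (H : Subgroup G) (W : Type u) [AddCommGroup W] [Finite W] [DistribMulAction H W],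
      Nat.card W < Nat.card V → H.map φ = ⊤ →
      (∀ h : H, (∀ w : W, h • w = w) → φ h = 1) → LinConcl (φ.comp H.subtype) W := by
    intro H W _ _ _ hlt hH hk
    exact ihl.apply hO H hH W (Or.inr hlt) hk
  rcases map_eq_bot_or_top (A := Subgroup.centralizer (M : Set G)) hφ'
      (fun k _ a ha => hCn.conj_mem a ha k) with hC | hC
  swap
  · exact hbad (Pool.Agent.TH350.J81.tensor_lemma hT φ hfaith hirr M hMne hC IH)
  have hCZ : ∀ g : G, (∀ m ∈ M, g * m * g⁻¹ * m⁻¹ ∈ Subgroup.center G) → φ g = 1 := by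
    let Y : Subgroup G :=
      { carrier := {g | ∀ m ∈ M, g * m * g⁻¹ * m⁻¹ ∈ Subgroup.center G}
        one_mem' := by
          intro m _
          have : (1 : G) * m * 1⁻¹ * m⁻¹ = 1 := by group
          rw [this]; exact Subgroup.one_mem _
        mul_mem' := by
          intro a b ha hb m hm
          have e : a * b * m * (a * b)⁻¹ * m⁻¹ =
            (a * (b * m * b⁻¹) * a⁻¹ * (b * m * b⁻¹)⁻¹) * (b * m * b⁻¹ * m⁻¹) := by group
          rw [e]
          exact Subgroup.mul_mem _ (ha _ (hMn.conj_mem m hm b)) (hb m hm)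
        inv_mem' := by
          intro a ha m hm
          have h1 := ha _ (hMn.conj_mem m hm a⁻¹)
          have e : a⁻¹ * m * a⁻¹⁻¹ * m⁻¹ =
            (a * (a⁻¹ * m * a⁻¹⁻¹) * a⁻¹ * (a⁻¹ * m * a⁻¹⁻¹)⁻¹)⁻¹ := by group
          rw [e]
          exact Subgroup.inv_mem _ h1 }
    have hYn : ∀ g : G, ∀ y ∈ Y, g * y * g⁻¹ ∈ Y := by
      intro g y hy m hm
      have h1 := hy _ (hMn.conj_mem m hm g⁻¹)
      have e : g * y * g⁻¹ * m * (g * y * g⁻¹)⁻¹ * m⁻¹ =
        g * (y * (g⁻¹ * m * g⁻¹⁻¹) * y⁻¹ * (g⁻¹ * m * g⁻¹⁻¹)⁻¹) * g⁻¹ := by group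
      rw [e]
      exact (inferInstance : (Subgroup.center G).Normal).conj_mem _ h1 g
    rcases map_eq_bot_or_top (A := Y) hφ' (fun k _ a ha => hYn k a ha) with hY | hY
    · intro g hg
      have : φ g ∈ Y.map φ := ⟨g, hg, rfl⟩
      rw [hY] at this
      exact Subgroup.mem_bot.mp this
    · exfalso
      have h1 : ⁅Y, Y⁆ ≤ Subgroup.centralizer (M : Set G) := by
        rw [Subgroup.commutator_le]
        intro g hg h hh
        have hsame : ∀ m ∈ M, (g * h) * m * (g * h)⁻¹ = (h * g) * m * (h * g)⁻¹ := by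
          intro m hm
          obtain ⟨z, hz, hz'⟩ : ∃ z ∈ Subgroup.center G, g * m * g⁻¹ = z * m :=
            ⟨_, hg m hm, by group⟩
          obtain ⟨w, hw, hw'⟩ : ∃ z ∈ Subgroup.center G, h * m * h⁻¹ = z * m :=
            ⟨_, hh m hm, by group⟩
          have e1 : (g * h) * m * (g * h)⁻¹ = g * (h * m * h⁻¹) * g⁻¹ := by group
          have e2 : (h * g) * m * (h * g)⁻¹ = h * (g * m * g⁻¹) * h⁻¹ := by group
          have e3 : g * (w * m) * g⁻¹ = w * (g * m * g⁻¹) := by
            rw [← mul_assoc g w m, Subgroup.mem_center_iff.mp hw g]; group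
          have e4 : h * (z * m) * h⁻¹ = z * (h * m * h⁻¹) := by
            rw [← mul_assoc h z m, Subgroup.mem_center_iff.mp hz h]; group
          rw [e1, e2, hw', hz', e3, e4, hz', hw', ← mul_assoc, ← mul_assoc,
            Subgroup.mem_center_iff.mp hz w]
        rw [Subgroup.mem_centralizer_iff]
        intro x hx
        have hx' : (h * g)⁻¹ * x * (h * g) ∈ M := by
          have := hMn.conj_mem x hx (h * g)⁻¹
          simpa using this
        have h1 := hsame _ hx'
        have h2 : (h * g) * ((h * g)⁻¹ * x * (h * g)) * (h * g)⁻¹ = x := by group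
        rw [h2] at h1
        rw [commutatorElement_def]
        have h3 : g * h * g⁻¹ * h⁻¹ * x = (g * h * ((h * g)⁻¹ * x * (h * g)) * (g * h)⁻¹) *
          (g * h * g⁻¹ * h⁻¹) := by group
        rw [h3, h1]
      have h2 := map_eq_top_of_commutator_le hT hY h1
      rw [hC] at h2
      apply ht₀
      have : t₀ ∈ (⊥ : Subgroup T) := by rw [h2]; exact Subgroup.mem_top _
      exact Subgroup.mem_bot.mp this
  by_cases hMab : ∀ a ∈ M, ∀ b ∈ M, a * b * a⁻¹ * b⁻¹ ∈ Subgroup.center G
  · -- symplectic type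
    refine hbad (sympl_lemma hT φ hfaith hZcyc hZfree M hZM.le hmin hMab ?_ hMne hCZ IH)
    intro a ha hcomm
    have h1 : (M ⊓ Subgroup.centralizer (M : Set G)) ≤ Subgroup.center G := by
      refine habc _ inferInstance ?_
      rintro a ⟨ha, -⟩ b ⟨-, hb⟩
      exact (Subgroup.mem_centralizer_iff.mp hb) a ha
    apply h1
    refine ⟨ha, ?_⟩
    change a ∈ Subgroup.centralizer (M : Set G)
    rw [Subgroup.mem_centralizer_iff]
    intro m hm
    exact (hcomm m hm).symm
  · -- nonabelian chief factor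
    have hRmap : (MulAction.stabilizer G v₀).map φ = ⊤ := map_top_mono inf_le_left (hst v₀ v₀)
    set R := MulAction.stabilizer G v₀ with hRdef
    have hRtop : R ≠ ⊤ := by
      intro h
      apply hv₀
      apply hnofix
      intro g
      have : g ∈ R := by rw [h]; exact Subgroup.mem_top g
      exact this
    have hRlt : Nat.card R < Nat.card G := by
      rcases lt_or_eq_of_le (Subgroup.card_le_card_group R) with h | h
      · exact h
      · exact absurd (Subgroup.eq_top_of_card_eq R h) hRtop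
    have hDmem : ∀ d : G, d ∈ (R ⊓ M) ⊔ Subgroup.center G ↔
        ∃ s ∈ R ⊓ M, ∃ z ∈ Subgroup.center G, d = s * z := by
      intro d
      rw [← SetLike.mem_coe, Subgroup.mul_normal]
      constructor
      · rintro ⟨s, hs, z, hz, rfl⟩
        exact ⟨s, hs, z, hz, rfl⟩
      · rintro ⟨s, hs, z, hz, rfl⟩
        exact ⟨s, hs, z, hz, rfl⟩
    obtain ⟨x, hxM, hx⟩ := na_apply hT φ hφ hO ihp R hRmap hRlt M (Subgroup.center G) hMn
      inferInstance hZM hMker hmin hMab hCZ ((R ⊓ M) ⊔ Subgroup.center G)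
      (by
        intro r hr d hd
        rw [hDmem] at hd ⊢
        obtain ⟨s, ⟨hs, hs'⟩, z, hz, rfl⟩ := hd
        refine ⟨r * s * r⁻¹, ⟨R.mul_mem (R.mul_mem hr hs) (R.inv_mem hr),
          hMn.conj_mem s hs' r⟩, z, hz, ?_⟩
        have := Subgroup.mem_center_iff.mp hz r⁻¹
        calc r * (s * z) * r⁻¹ = r * s * (z * r⁻¹) := by group
          _ = r * s * (r⁻¹ * z) := by rw [this]
          _ = r * s * r⁻¹ * z := by group)
      le_sup_right
      (by
        intro K hKD hKM hKn
        -- the derived subgroup of `K` fixes `v₀`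
        have h1 : ⁅K, K⁆ ≤ R ⊓ M := by
          rw [Subgroup.commutator_le]
          intro a ha b hb
          obtain ⟨j, hj, z, hz, rfl⟩ := (hDmem a).mp (hKD ha)
          obtain ⟨j', hj', z', hz', rfl⟩ := (hDmem b).mp (hKD hb)
          have hz1 := Subgroup.mem_center_iff.mp hz
          have hz2 := Subgroup.mem_center_iff.mp hz'
          have : ⁅j * z, j' * z'⁆ = ⁅j, j'⁆ := by
            rw [commutatorElement_def, commutatorElement_def]
            calc j * z * (j' * z') * (j * z)⁻¹ * (j' * z')⁻¹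
                = j * z * (j' * z') * (z⁻¹ * j⁻¹) * (z'⁻¹ * j'⁻¹) := by
                  rw [mul_inv_rev, mul_inv_rev]
              _ = j * (z * (j' * z')) * z⁻¹ * j⁻¹ * z'⁻¹ * j'⁻¹ := by group
              _ = j * ((j' * z') * z) * z⁻¹ * j⁻¹ * z'⁻¹ * j'⁻¹ := by rw [← hz1 (j' * z')]
              _ = j * j' * (z' * j⁻¹) * z'⁻¹ * j'⁻¹ := by group
              _ = j * j' * (j⁻¹ * z') * z'⁻¹ * j'⁻¹ := by rw [← hz2 j⁻¹]
              _ = j * j' * j⁻¹ * j'⁻¹ := by group
          rw [this, commutatorElement_def]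
          exact (R ⊓ M).mul_mem ((R ⊓ M).mul_mem ((R ⊓ M).mul_mem hj hj')
            ((R ⊓ M).inv_mem hj)) ((R ⊓ M).inv_mem hj')
        have h2 : ⁅K, K⁆ = ⊥ := by
          refine fix_lemma hT φ hφ hO ihp ihl hfaith hirr hbad M hMn _ (h1.trans inf_le_right)
            ?_ ⟨v₀, hv₀, fun k hk => (h1 hk).1⟩
          intro m hm k hk
          have h3 : ⁅K, K⁆.map (MulAut.conj m).toMonoidHom ≤ ⁅K, K⁆ := by
            rw [Subgroup.map_commutator]
            refine Subgroup.commutator_mono ?_ ?_
            · rintro _ ⟨k, hk, rfl⟩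
              exact hKn m hm k hk
            · rintro _ ⟨k, hk, rfl⟩
              exact hKn m hm k hk
          exact h3 ⟨k, hk, rfl⟩
        let _ : MulDistribMulAction G M := conjAct M
        have hactM : ∀ (g : G) (m : M), ((g • m : M) : G) = g * m * g⁻¹ := fun g m => rfl
        obtain ⟨-, hinter⟩ := family_inter M (Subgroup.center G) hMn inferInstance hZM hmin
          hMab hactM
        intro k hk
        refine (hinter ⟨k, hKM hk⟩).mp ?_
        intro C hC
        have hKn' : (K.subgroupOf M).Normal := by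
          constructor
          intro a ha b
          rw [Subgroup.mem_subgroupOf] at ha ⊢
          exact hKn b b.2 a ha
        have h4 : K.subgroupOf M ≤ C := by
          refine hC.1.le_of_commutator_le hKn' ?_
          have h5 : ⁅K.subgroupOf M, K.subgroupOf M⁆ ≤ ⊥ := by
            rw [Subgroup.commutator_le]
            intro a ha b hb
            rw [Subgroup.mem_bot]
            apply Subtype.ext
            have h6 : ⁅(a : G), (b : G)⁆ ∈ ⁅K, K⁆ :=
              Subgroup.commutator_mem_commutator ha hb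
            rw [h2, Subgroup.mem_bot] at h6
            exact h6
          exact h5.trans bot_le
        exact h4 (by rw [Subgroup.mem_subgroupOf]; exact hk))
    refine hx _ inf_le_left ?_ (hst v₀ (x • v₀))
    intro r hr
    have hr1 : r • v₀ = v₀ := hr.1
    have hr2 : r • (x • v₀) = x • v₀ := hr.2
    apply Subgroup.mem_sup_left
    refine ⟨?_, M.mul_mem (M.inv_mem hxM) (hMn.conj_mem x hxM r)⟩
    change (x⁻¹ * (r * x * r⁻¹)) • v₀ = v₀
    rw [mul_smul, mul_smul, mul_smul, inv_smul_eq_iff.mpr hr1.symm, hr2, inv_smul_smul]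

end Pool.Agent.TH82.BS
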