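import Pool.Agent.TH82.BS.PermStep
import Pool.Agent.TH82.BS.LinStep

/-!
The induction.
-/

namespace Pool.Agent.TH82.BS

open scoped Pointwise

universe u

/-- Statement of both theorems for `|G| = g` and `|Ω| = n` (resp. `|V| = n`). -/
def Both (T : Type u) [Group T] (g n : ℕ) : Prop :=
  (∀ (G' : Type u) [Group G'] [Finite G'] (φ' : G' →* T), Function.Surjective φ' → OutFree φ' →
    ∀ (Ω' : Type u) [MulAction G' Ω'] [Finite Ω'], Nat.card G' = g → Nat.card Ω' = n →
      (∀ x : G', (∀ ω : Ω', x • ω = ω) → φ' x = 1) → PermConcl φ' Ω') ∧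
  (∀ (G' : Type u) [Group G'] [Finite G'] (φ' : G' →* T), Function.Surjective φ' → OutFree φ' →
    ∀ (V' : Type u) [AddCommGroup V'] [Finite V'] [DistribMulAction G' V'],
      Nat.card G' = g → Nat.card V' = n →
      (∀ x : G', (∀ v : V', x • v = v) → φ' x = 1) → LinConcl φ' V')

theorem both {T : Type u} [Group T] [IsSimpleGroup T] (hT : ¬ ∀ a b : T, a * b = b * a) :
    ∀ g n : ℕ, Both T g n := by
  intro g
  induction g using Nat.strong_induction_on with
  | _ g ihg =>
    intro n
    induction n using Nat.strong_induction_on with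
    | _ n ihn =>
      have ihp : IHP T g n := by
        intro G' _ _ φ' hφ' hO' Ω' _ _ hlt hk
        rcases hlt with h | ⟨h, h'⟩
        · exact (ihg _ h _).1 G' φ' hφ' hO' Ω' rfl rfl hk
        · rcases lt_or_eq_of_le h with h1 | h1
          · exact (ihg _ h1 _).1 G' φ' hφ' hO' Ω' rfl rfl hk
          · exact (ihn _ h').1 G' φ' hφ' hO' Ω' h1 rfl hk
      have ihl : IHL T g n := by
        intro G' _ _ φ' hφ' hO' V' _ _ _ hlt hk
        rcases hlt with h | ⟨h, h'⟩
        · exact (ihg _ h _).2 G' φ' hφ' hO' V' rfl rfl hk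
        · rcases lt_or_eq_of_le h with h1 | h1
          · exact (ihg _ h1 _).2 G' φ' hφ' hO' V' rfl rfl hk
          · exact (ihn _ h').2 G' φ' hφ' hO' V' h1 rfl hk
      constructor
      · intro G' _ _ φ' hφ' hO' Ω' _ _ hG hΩ hk
        subst hG hΩ
        exact perm_step hT φ' hφ' hO' Ω' ihp ihl hk
      · intro G' _ _ φ' hφ' hO' V' _ _ _ hG hV hk
        subst hG hV
        exact lin_step hT φ' hφ' hO' V' ihp ihl hk

theorem perm_theorem {T : Type u} [Group T] [IsSimpleGroup T]
    (hT : ¬ ∀ a b : T, a * b = b * a) {G : Type u} [Group G] [Finite G] (φ : G →* T)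
    (hφ : Function.Surjective φ) (hO : OutFree φ) (Ω : Type u) [MulAction G Ω] [Finite Ω]
    (hker : ∀ x : G, (∀ ω : Ω, x • ω = ω) → φ x = 1) : PermConcl φ Ω :=
  (both hT (Nat.card G) (Nat.card Ω)).1 G φ hφ hO Ω rfl rfl hker

end Pool.Agent.TH82.BS
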