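import Pool.Agent.TH82.BS.Perm

/-!
Application form of the nonabelian lemma.
-/

namespace Pool.Agent.TH82.BS

open scoped Pointwise commutatorElement

universe u

variable {T : Type u} [Group T] [IsSimpleGroup T]
variable {G : Type u} [Group G] [Finite G]

theorem na_apply (hT : ¬ ∀ a b : T, a * b = b * a) (φ : G →* T)
    (hφ : Function.Surjective φ) (hO : OutFree φ) {n : ℕ} (ihp : IHP T (Nat.card G) n)
    (R : Subgroup G) (hR : R.map φ = ⊤) (hRlt : Nat.card R < Nat.card G)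
    (M Z : Subgroup G) (hMn : M.Normal) (hZn : Z.Normal) (hZM : Z < M) (hMker : M ≤ φ.ker)
    (hmin : ∀ K : Subgroup G, K.Normal → Z ≤ K → K ≤ M → K = Z ∨ K = M)
    (hna : ¬ ∀ a ∈ M, ∀ b ∈ M, a * b * a⁻¹ * b⁻¹ ∈ Z)
    (hcent : ∀ g : G, (∀ m ∈ M, g * m * g⁻¹ * m⁻¹ ∈ Z) → φ g = 1)
    (D : Subgroup G) (hDR : ∀ r ∈ R, ∀ d ∈ D, r * d * r⁻¹ ∈ D) (hZD : Z ≤ D)
    (hcore : ∀ K : Subgroup G, K ≤ D → K ≤ M → (∀ m ∈ M, ∀ k ∈ K, m * k * m⁻¹ ∈ K) → K ≤ Z) :
    ∃ x ∈ M, ∀ J : Subgroup G, J ≤ R → (∀ r ∈ J, x⁻¹ * (r * x * r⁻¹) ∈ D) → J.map φ ≠ ⊤ := by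
  classical
  let _ : MulDistribMulAction G M := conjAct M
  have hactM : ∀ (g : G) (m : M), ((g • m : M) : G) = g * m * g⁻¹ := fun g m => rfl
  obtain ⟨hne, hinter⟩ := family_inter M Z hMn hZn hZM hmin hna hactM
  have hsch := schreier_step hT φ hφ hO M hMker hactM (family M Z) (fun C hC => hC.1)
    (fun g C hC => family_inv M Z hZn hactM g C hC) (by
      intro g hg
      apply hcent
      intro m hm
      have h1 := (hinter (g • (⟨m, hm⟩ : M) * (⟨m, hm⟩ : M)⁻¹)).mp (fun C hC => hg ⟨m, hm⟩ C hC)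
      exact h1)
  have hsurj : Function.Surjective (φ.comp R.subtype) := surjective_comp_subtype hR
  obtain ⟨x, hx⟩ := na_lemma hT (R := R) (φ.comp R.subtype) hsurj
    (by
      intro R' Ω _ _ hR' hker
      refine ihp R' ((φ.comp R.subtype).comp R'.subtype) (surjective_comp_subtype hR')
        ((hO.subgroup R).subgroup R') Ω (Or.inl ?_) hker
      exact lt_of_le_of_lt (Nat.card_le_card_of_injective _ R'.subtype_injective) hRlt)
    (M := M) (family M Z) (fun C hC => hC.1)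
    (fun r C hC => family_inv M Z hZn hactM (r : G) C hC)
    (fun r hr => hsch (r : G) (fun C hC => hr C hC))
    (D.subgroupOf M)
    (by
      intro r
      have hfwd : ∀ r ∈ R, ∀ m : M, m ∈ D.subgroupOf M → r • m ∈ D.subgroupOf M := by
        intro r hr m hm
        rw [Subgroup.mem_subgroupOf] at hm ⊢
        rw [hactM]
        exact hDR r hr _ hm
      ext m
      rw [Subgroup.mem_pointwise_smul_iff_inv_smul_mem]
      constructor
      · intro h
        have := hfwd r r.2 _ h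
        have e : (r : G) • (r⁻¹ • m) = m := smul_inv_smul r m
        rw [e] at this
        exact this
      · intro h
        exact hfwd (r⁻¹ : R) (r⁻¹ : R).2 m h)
    (by
      intro K hK hKD C hC
      have h1 : K.map M.subtype ≤ Z := by
        refine hcore _ ?_ ?_ ?_
        · rintro _ ⟨k, hk, rfl⟩
          exact hKD hk
        · rintro _ ⟨k, hk, rfl⟩
          exact k.2
        · rintro m hm _ ⟨k, hk, rfl⟩
          exact ⟨⟨m, hm⟩ * k * ⟨m, hm⟩⁻¹, hK.conj_mem k hk ⟨m, hm⟩, rfl⟩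
      intro k hk
      apply hC.2
      rw [Subgroup.mem_subgroupOf]
      exact h1 ⟨k, hk, rfl⟩)
    (by
      intro z hz
      rw [Subgroup.mem_subgroupOf]
      exact hZD ((hinter z).mp hz))
  refine ⟨x, x.2, fun J hJR hJ hJtop => ?_⟩
  refine hx (J.subgroupOf R) ?_ ?_
  · intro r hr
    rw [Subgroup.mem_subgroupOf] at hr ⊢
    exact hJ r hr
  · rw [← Subgroup.map_map, Subgroup.subgroupOf_map_subtype, inf_eq_left.mpr hJR]
    exact hJtop

end Pool.Agent.TH82.BS
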