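import Pool.Agent.TH82.BS.CRT
import Pool.Agent.TH553.J80

/-!
The nonabelian lemma `na_lemma` (proved in `Pool.Agent.TH553.J80`).
-/
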