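import Pool.Agent.TH82.BS.Basic

/-!
Normal subgroups with nonabelian simple quotient.
-/

namespace Pool.Agent.TH82.BS

open scoped Pointwise commutatorElement

universe u

/-- `C` is a normal subgroup with nonabelian simple quotient. -/
structure NSMax {M : Type u} [Group M] (C : Subgroup M) : Prop where
  normal : C.Normal
  maximal : ∀ K : Subgroup M, K.Normal → C ≤ K → K = C ∨ K = ⊤
  nonab : ¬ (⁅(⊤ : Subgroup M), (⊤ : Subgroup M)⁆ ≤ C)

namespace NSMax

variable {M : Type u} [Group M] {C : Subgroup M}

theorem ne_top (h : NSMax C) : C ≠ ⊤ := fun h' => h.nonab (by rw [h']; exact le_top)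

theorem isSimpleGroup (h : NSMax C) : haveI := h.normal; IsSimpleGroup (M ⧸ C) := by
  have := h.normal
  have hne : ∃ x : M ⧸ C, x ≠ 1 := by
    by_contra hcon
    push Not at hcon
    apply h.ne_top
    rw [eq_top_iff]
    intro m _
    exact (QuotientGroup.eq_one_iff m).mp (hcon m)
  obtain ⟨x, hx⟩ := hne
  refine { exists_pair_ne := ⟨x, 1, hx⟩, eq_bot_or_eq_top_of_normal := ?_ }
  intro K hK
  have h1 : (K.comap (QuotientGroup.mk' C)).Normal := hK.comap _
  rcases h.maximal _ h1 (by
    intro c hc
    rw [Subgroup.mem_comap]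
    have : QuotientGroup.mk' C c = 1 := (QuotientGroup.eq_one_iff c).mpr hc
    rw [this]
    exact K.one_mem) with h2 | h2
  · left
    rw [eq_bot_iff]
    intro y hy
    obtain ⟨m, rfl⟩ := QuotientGroup.mk'_surjective C y
    have : m ∈ K.comap (QuotientGroup.mk' C) := hy
    rw [h2] at this
    exact (QuotientGroup.eq_one_iff m).mpr this
  · right
    rw [eq_top_iff]
    intro y _
    obtain ⟨m, rfl⟩ := QuotientGroup.mk'_surjective C y
    have : m ∈ K.comap (QuotientGroup.mk' C) := by rw [h2]; exact Subgroup.mem_top m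
    exact this

theorem nonab_quotient (h : NSMax C) : haveI := h.normal; ¬ ∀ a b : M ⧸ C, a * b = b * a := by
  have := h.normal
  intro hcomm
  apply h.nonab
  rw [Subgroup.commutator_le]
  intro a _ b _
  have h1 : (QuotientGroup.mk' C) ⁅a, b⁆ = 1 := by
    rw [commutatorElement_def, map_mul, map_mul, map_mul, map_inv, map_inv,
      hcomm (QuotientGroup.mk' C a)]
    group
  exact (QuotientGroup.eq_one_iff _).mp h1

end NSMax

section conj

variable {G : Type u} [Group G]

/-- `G` acts on a normal subgroup by conjugation. -/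
abbrev conjAct (M : Subgroup G) [M.Normal] : MulDistribMulAction G M :=
  MulDistribMulAction.compHom M (MulAut.conjNormal : G →* MulAut M)

end conj

section schreier

variable {T : Type u} [Group T] [IsSimpleGroup T]
variable {G : Type u} [Group G] [Finite G]

/-- If `G` acts on `M` (e.g. by conjugation), and inner automorphisms of `M` come from elements of
`ker φ`, with `M` a section of `ker φ`, then the kernel of `G` on a set of normal subgroups with
nonabelian simple quotient is in `ker φ`. -/
theorem schreier_step (hT : ¬ ∀ a b : T, a * b = b * a) (φ : G →* T)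
    (hφ : Function.Surjective φ) (hO : OutFree φ)
    (M : Subgroup G) (hM : M ≤ φ.ker) [MulDistribMulAction G M]
    (hactM : ∀ (g : G) (m : M), ((g • m : M) : G) = g * m * g⁻¹)
    (CC : Set (Subgroup M)) (hCC : ∀ C ∈ CC, NSMax C) (hinv : ∀ g : G, ∀ C ∈ CC, g • C ∈ CC)
    (hcent : ∀ g : G, (∀ m : M, ∀ C ∈ CC, (g • m) * m⁻¹ ∈ C) → φ g = 1) :
    ∀ g : G, (∀ C ∈ CC, g • C = C) → φ g = 1 := by
  classical
  have hφ' : (⊤ : Subgroup G).map φ = ⊤ := by
    rw [← MonoidHom.range_eq_map]; exact MonoidHom.range_eq_top.mpr hφ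
  let K : Subgroup G :=
    { carrier := {g | ∀ C ∈ CC, g • C = C}
      one_mem' := fun X _ => one_smul _ _
      mul_mem' := by
        intro a b ha hb X hX
        rw [mul_smul, hb X hX, ha X hX]
      inv_mem' := by
        intro a ha X hX
        rw [inv_smul_eq_iff, ha X hX] }
  have hKn : ∀ g : G, ∀ k ∈ K, g * k * g⁻¹ ∈ K := by
    intro g k hk X hX
    rw [mul_smul, mul_smul, hk _ (hinv g⁻¹ X hX), smul_inv_smul]
  rcases map_eq_bot_or_top (A := K) hφ' (fun k _ a ha => hKn k a ha) with hK | hK
  · intro g hg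
    have : φ g ∈ K.map φ := ⟨g, hg, rfl⟩
    rw [hK] at this
    exact Subgroup.mem_bot.mp this
  exfalso
  obtain ⟨C, hC⟩ := block_lemma hT hK (ι := CC)
    (fun C => { carrier := {g : G | g • (C : Subgroup M) = C ∧
                  ∀ m : M, (g • m) * m⁻¹ ∈ (C : Subgroup M)}
                one_mem' := by
                  refine ⟨one_smul _ _, fun m => ?_⟩
                  rw [one_smul, mul_inv_cancel]
                  exact Subgroup.one_mem _
                mul_mem' := by
                  rintro a b ⟨ha, ha'⟩ ⟨hb, hb'⟩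
                  refine ⟨by rw [mul_smul, hb, ha], fun m => ?_⟩
                  have e : (a * b) • m * m⁻¹ = (a • (b • m) * (b • m)⁻¹) * (b • m * m⁻¹) := by
                    rw [mul_smul]; group
                  rw [e]
                  exact Subgroup.mul_mem _ (ha' _) (hb' _)
                inv_mem' := by
                  rintro a ⟨ha, ha'⟩
                  refine ⟨by rw [inv_smul_eq_iff, ha], fun m => ?_⟩
                  have e : a⁻¹ • m * m⁻¹ = (a • (a⁻¹ • m) * (a⁻¹ • m)⁻¹)⁻¹ := by
                    rw [smul_inv_smul]; group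
                  rw [e]
                  exact Subgroup.inv_mem _ (ha' _) })
    (fun C => MulAction.stabilizer G (C : Subgroup M))
    (fun i g _ k hk => hKn g k hk)
    (fun C g hg => hg.1)
    (by
      rintro C k hk e ⟨he, he'⟩
      have hkC : k • (C : Subgroup M) = C := hk C C.2
      refine ⟨by rw [mul_smul, mul_smul, inv_smul_eq_iff.mpr hkC.symm, he, hkC], fun m => ?_⟩
      have h1 := he' (k⁻¹ • m)
      have h2 := Subgroup.smul_mem_pointwise_smul _ k _ h1
      rw [hkC, smul_mul', smul_inv', smul_inv_smul] at h2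
      rw [mul_smul, mul_smul]
      exact h2)
    (by
      intro g _ hg
      apply hcent
      intro m C hC
      exact (hg ⟨C, hC⟩).2 m)
  have hCmax := hCC C C.2
  have hCn := hCmax.normal
  set St : Subgroup G := MulAction.stabilizer G (C : Subgroup M) with hSt
  have hKSt : K ≤ St := fun k hk => hk C C.2
  have hStmap : St.map φ = ⊤ := map_top_mono hKSt hK
  -- the action on the quotient
  have hmap : ∀ g : St, (C : Subgroup M).map
      (MulDistribMulAction.toMulEquiv M (g : G) : M ≃* M).toMonoidHom = C := by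
    intro g
    have : (g : G) • (C : Subgroup M) = C := g.2
    exact this
  let ρ : St →* MulAut (M ⧸ (C : Subgroup M)) :=
    { toFun := fun g => QuotientGroup.congr _ _ (MulDistribMulAction.toMulEquiv M (g : G)) (hmap g)
      map_one' := by
        ext x
        obtain ⟨m, rfl⟩ := QuotientGroup.mk'_surjective _ x
        simp
      map_mul' := by
        intro a b
        ext x
        obtain ⟨m, rfl⟩ := QuotientGroup.mk'_surjective _ x
        change QuotientGroup.mk' (C : Subgroup M) (((a : G) * (b : G)) • m) =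
          QuotientGroup.mk' (C : Subgroup M) ((a : G) • ((b : G) • m))
        rw [mul_smul] }
  have hρ : ∀ (g : St) (m : M), ρ g (QuotientGroup.mk' (C : Subgroup M) m) =
      QuotientGroup.mk' (C : Subgroup M) ((g : G) • m) := fun g m => rfl
  have hρker : ∀ g : St, ∀ m₀ : M, ρ g = MulAut.conj (QuotientGroup.mk' (C : Subgroup M) m₀) →
      φ g = 1 := by
    intro g m₀ hg
    have h1 : φ ((m₀ : G)⁻¹ * (g : G)) = 1 := by
      apply hC
      have hact : ∀ m : M, ((m₀ : G)⁻¹ * (g : G)) • m = m₀⁻¹ * ((g : G) • m) * m₀ := by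
        intro m
        rw [mul_smul]
        apply Subtype.ext
        rw [hactM, inv_inv]
        rfl
      have h2 : ∀ m : M, ((m₀ : G)⁻¹ * (g : G)) • m * m⁻¹ ∈ (C : Subgroup M) := by
        intro m
        have h3 := DFunLike.congr_fun hg (QuotientGroup.mk' (C : Subgroup M) m)
        rw [hρ, MulAut.conj_apply] at h3
        rw [← QuotientGroup.eq_one_iff]
        change QuotientGroup.mk' (C : Subgroup M) _ = 1
        rw [hact, map_mul, map_mul, map_mul, h3, map_inv, map_inv]
        group
      refine ⟨?_, h2⟩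
      have hgC : (g : G) • (C : Subgroup M) = C := g.2
      rw [mul_smul, hgC]
      ext x
      rw [Subgroup.mem_pointwise_smul_iff_inv_smul_mem, inv_inv]
      have : (m₀ : G) • x = m₀ * x * m₀⁻¹ := by
        apply Subtype.ext
        exact hactM _ _
      rw [this]
      exact ⟨fun h => by simpa [mul_assoc] using hCn.conj_mem _ h m₀⁻¹,
        fun h => hCn.conj_mem _ h m₀⟩
    have h2 : φ (m₀ : G) = 1 := hM m₀.2
    rw [map_mul, map_inv, h2, inv_one, one_mul] at h1
    exact h1
  let φ' : St →* T := φ.comp St.subtype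
  have hker : ρ.rangeRestrict.ker ≤ φ'.ker := by
    intro g hg
    rw [MonoidHom.ker_rangeRestrict, MonoidHom.mem_ker] at hg
    rw [MonoidHom.mem_ker]
    refine hρker g 1 ?_
    rw [hg]
    ext x
    simp
  let ψ : ρ.range →* T := (MonoidHom.liftOfSurjective ρ.rangeRestrict
    ρ.rangeRestrict_surjective) ⟨φ', hker⟩
  have hψ : ∀ g : St, ψ (ρ.rangeRestrict g) = φ g := by
    intro g
    exact MonoidHom.liftOfRightInverse_comp_apply _ _ _ ⟨φ', hker⟩ g
  have := hCmax.isSimpleGroup
  refine hO (M ⧸ (C : Subgroup M)) hCmax.nonab_quotient M hM (QuotientGroup.mk' _)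
    (QuotientGroup.mk'_surjective _) ρ.range ψ ?_ ?_
  · rintro ⟨a, g, rfl⟩ ⟨y, hy⟩
    obtain ⟨m₀, rfl⟩ := QuotientGroup.mk'_surjective _ y
    have h1 := hψ g
    have h2 : ρ.rangeRestrict g = ⟨ρ g, ⟨g, rfl⟩⟩ := rfl
    rw [h2] at h1
    rw [h1]
    exact hρker g m₀ hy.symm
  · intro t
    have ht : t ∈ St.map φ := by rw [hStmap]; exact Subgroup.mem_top t
    obtain ⟨g, hg, rfl⟩ := ht
    exact ⟨ρ.rangeRestrict ⟨g, hg⟩, hψ ⟨g, hg⟩⟩

end schreier

end Pool.Agent.TH82.BS
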