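import Pool.Agent.TH82.BS.Decomp
import Pool.Agent.TH82.BS.Family
import Pool.Agent.TH82.BS.NAFinal

/-!
Reductions for the permutation theorem.
-/

namespace Pool.Agent.TH82.BS

open scoped Pointwise commutatorElement

universe u

section general

variable {T : Type u} [Group T] [IsSimpleGroup T]
variable {G : Type u} [Group G]

/-- pointwise stabilizer of a set -/
def ptStab (G : Type u) [Group G] {Ω : Type u} [MulAction G Ω] (Δ : Set Ω) : Subgroup G where
  carrier := {g | ∀ ω ∈ Δ, g • ω = ω}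
  one_mem' := fun ω _ => one_smul _ _
  mul_mem' := by
    intro a b ha hb ω hω
    rw [mul_smul, hb ω hω, ha ω hω]
  inv_mem' := by
    intro a ha ω hω
    rw [inv_smul_eq_iff, ha ω hω]

theorem mem_ptStab {Ω : Type u} [MulAction G Ω] {Δ : Set Ω} {g : G} :
    g ∈ ptStab G Δ ↔ ∀ ω ∈ Δ, g • ω = ω := Iff.rfl

theorem ptStab_map_eq_top (hT : ¬ ∀ a b : T, a * b = b * a) {φ : G →* T}
    {Ω : Type u} [MulAction G Ω] {Δ : Set Ω} (hf : Δ.Finite) (h3 : Δ.ncard ≤ 3)
    (h : (MulAction.stabilizer G Δ).map φ = ⊤) : (ptStab G Δ).map φ = ⊤ := by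
  have hmem : ∀ g ∈ MulAction.stabilizer G Δ, ∀ ω ∈ Δ, g • ω ∈ Δ := by
    intro g hg ω hω
    have hg' : g • Δ = Δ := hg
    rw [← hg']
    exact Set.smul_mem_smul_set hω
  let _ : MulAction (MulAction.stabilizer G Δ) Δ :=
    { smul := fun g ω => ⟨(g : G) • (ω : Ω), hmem g g.2 ω ω.2⟩
      one_smul := fun ω => Subtype.ext (one_smul G (ω : Ω))
      mul_smul := fun a b ω => Subtype.ext (mul_smul (a : G) (b : G) (ω : Ω)) }
  have : Finite Δ := hf
  have hsolv := perm_solvable_of_card_le_three Δ (by rw [Nat.card_coe_set_eq]; exact h3)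
  have h1 := map_ker_eq_top_of_solvable hT h
    (MulAction.toPermHom (MulAction.stabilizer G Δ) Δ)
  refine map_top_mono ?_ h1
  rintro _ ⟨g, hg, rfl⟩ ω hω
  have hg' : MulAction.toPermHom (MulAction.stabilizer G Δ) Δ g = 1 := hg
  have h2 := Equiv.congr_fun hg' ⟨ω, hω⟩
  exact congrArg Subtype.val h2

theorem permConcl_of_ptStab (hT : ¬ ∀ a b : T, a * b = b * a) {φ : G →* T}
    {Ω : Type u} [MulAction G Ω] (Δ : Set Ω) (hf : Δ.Finite) (h3 : Δ.ncard ≤ 3)
    (h : (ptStab G Δ).map φ ≠ ⊤) : PermConcl φ Ω :=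
  ⟨Δ, h3, hf, fun h' => h (ptStab_map_eq_top hT hf h3 h')⟩

end general

section faithful

variable {T : Type u} [Group T] [IsSimpleGroup T]
variable {G : Type u} [Group G] [Finite G]

omit [IsSimpleGroup T] in
/-- Reduction to faithful actions (permutations). -/
theorem perm_of_nonfaithful (φ : G →* T) (hφ : Function.Surjective φ) (hO : OutFree φ)
    (Ω : Type u) [MulAction G Ω] [Finite Ω]
    (ihp : IHP T (Nat.card G) (Nat.card Ω))
    (hker : ∀ x : G, (∀ ω : Ω, x • ω = ω) → φ x = 1)
    (hnf : ∃ g : G, g ≠ 1 ∧ ∀ ω : Ω, g • ω = ω) : PermConcl φ Ω := by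
  set E : Subgroup G := (MulAction.toPermHom G Ω).ker with hE
  have hEmem : ∀ g : G, g ∈ E ↔ ∀ ω : Ω, g • ω = ω := by
    intro g
    rw [hE, MonoidHom.mem_ker]
    constructor
    · intro h ω
      exact Equiv.congr_fun h ω
    · intro h
      ext ω
      exact h ω
  have hEker : E ≤ φ.ker := fun g hg => hker g ((hEmem g).mp hg)
  let _ : MulAction (G ⧸ E) Ω := MulAction.compHom Ω
    (QuotientGroup.lift E (MulAction.toPermHom G Ω) (le_refl _))
  have hsm : ∀ (g : G) (ω : Ω), (QuotientGroup.mk' E g) • ω = g • ω := fun g ω => rfl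
  have hsurj : Function.Surjective (QuotientGroup.lift E φ hEker) := by
    intro t
    obtain ⟨g, rfl⟩ := hφ t
    exact ⟨QuotientGroup.mk' E g, rfl⟩
  have hlt : Nat.card (G ⧸ E) < Nat.card G := by
    obtain ⟨g, hg, hg'⟩ := hnf
    have h1 := Subgroup.card_eq_card_quotient_mul_card_subgroup E
    have h2 : 1 < Nat.card E := by
      rw [Subgroup.one_lt_card_iff_ne_bot]
      intro h
      apply hg
      have : g ∈ E := (hEmem g).mpr hg'
      rw [h] at this
      exact Subgroup.mem_bot.mp this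
    have h3 : 0 < Nat.card (G ⧸ E) := Nat.card_pos
    rw [h1]
    nlinarith
  obtain ⟨Δ, h3, hf, hΔ⟩ := ihp (G ⧸ E) (QuotientGroup.lift E φ hEker) hsurj
    (hO.quotient E hEker) Ω (Or.inl hlt) (by
      intro x hx
      obtain ⟨g, rfl⟩ := QuotientGroup.mk'_surjective E x
      exact hker g hx)
  refine ⟨Δ, h3, hf, fun h => hΔ ?_⟩
  rw [eq_top_iff, ← h]
  rintro _ ⟨g, hg, rfl⟩
  have hg' : g • Δ = Δ := hg
  exact ⟨QuotientGroup.mk' E g, hg', rfl⟩

omit [IsSimpleGroup T] in
/-- Reduction to faithful actions (linear). -/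
theorem lin_of_nonfaithful (φ : G →* T) (hφ : Function.Surjective φ) (hO : OutFree φ)
    (V : Type u) [AddCommGroup V] [DistribMulAction G V] [Finite V]
    (ihl : IHL T (Nat.card G) (Nat.card V))
    (hker : ∀ x : G, (∀ v : V, x • v = v) → φ x = 1)
    (hnf : ∃ g : G, g ≠ 1 ∧ ∀ v : V, g • v = v) : LinConcl φ V := by
  set E : Subgroup G := (DistribMulAction.toAddMonoidEnd G V).ker with hE
  have hEmem : ∀ g : G, g ∈ E ↔ ∀ v : V, g • v = v := by
    intro g
    rw [hE, MonoidHom.mem_ker]
    constructor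
    · intro h v
      exact DFunLike.congr_fun h v
    · intro h
      ext v
      exact h v
  have hEker : E ≤ φ.ker := fun g hg => hker g ((hEmem g).mp hg)
  let _ : DistribMulAction (G ⧸ E) V := DistribMulAction.compHom V
    (QuotientGroup.lift E (DistribMulAction.toAddMonoidEnd G V) (le_refl _))
  have hsurj : Function.Surjective (QuotientGroup.lift E φ hEker) := by
    intro t
    obtain ⟨g, rfl⟩ := hφ t
    exact ⟨QuotientGroup.mk' E g, rfl⟩
  have hlt : Nat.card (G ⧸ E) < Nat.card G := by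
    obtain ⟨g, hg, hg'⟩ := hnf
    have h1 := Subgroup.card_eq_card_quotient_mul_card_subgroup E
    have h2 : 1 < Nat.card E := by
      rw [Subgroup.one_lt_card_iff_ne_bot]
      intro h
      apply hg
      have : g ∈ E := (hEmem g).mpr hg'
      rw [h] at this
      exact Subgroup.mem_bot.mp this
    have h3 : 0 < Nat.card (G ⧸ E) := Nat.card_pos
    rw [h1]
    nlinarith
  obtain ⟨v₁, v₂, hv⟩ := ihl (G ⧸ E) (QuotientGroup.lift E φ hEker) hsurj
    (hO.quotient E hEker) V (Or.inl hlt) (by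
      intro x hx
      obtain ⟨g, rfl⟩ := QuotientGroup.mk'_surjective E x
      exact hker g hx)
  refine ⟨v₁, v₂, fun h => hv ?_⟩
  rw [eq_top_iff, ← h]
  rintro _ ⟨g, hg, rfl⟩
  exact ⟨QuotientGroup.mk' E g, hg, rfl⟩

end faithful

section orbits

variable {T : Type u} [Group T] [IsSimpleGroup T]
variable {G : Type u} [Group G] [Finite G]

/-- Reduction to the case where every nontrivial normal subgroup is transitive. -/
theorem perm_of_intransitive (hT : ¬ ∀ a b : T, a * b = b * a) (φ : G →* T)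
    (hφ : Function.Surjective φ) (hO : OutFree φ)
    (Ω : Type u) [MulAction G Ω] [Finite Ω]
    (ihp : IHP T (Nat.card G) (Nat.card Ω))
    (hfaith : ∀ x : G, (∀ ω : Ω, x • ω = ω) → x = 1)
    (M : Subgroup G) [M.Normal] (hM : M ≠ ⊥)
    (hint : ¬ ∀ ω ω' : Ω, ∃ m ∈ M, m • ω = ω') : PermConcl φ Ω := by
  classical
  have hφ' : (⊤ : Subgroup G).map φ = ⊤ := by
    rw [← MonoidHom.range_eq_map]; exact MonoidHom.range_eq_top.mpr hφ
  let Sig : Set (Set Ω) := {B | ∃ ω : Ω, B = MulAction.orbit M ω}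
  have hmemorb : ∀ ω ω' : Ω, ω' ∈ MulAction.orbit M ω ↔ ∃ m ∈ M, m • ω = ω' := by
    intro ω ω'
    constructor
    · rintro ⟨m, hm⟩
      exact ⟨m, m.2, hm⟩
    · rintro ⟨m, hm, h⟩
      exact ⟨⟨m, hm⟩, h⟩
  have hsmulorb : ∀ (g : G) (ω : Ω), g • MulAction.orbit M ω = MulAction.orbit M (g • ω) :=
    fun g ω => MulAction.smul_orbit_eq_orbit_smul M ω g
  have hinv : ∀ g : G, ∀ B ∈ Sig, g • B ∈ Sig := by
    rintro g B ⟨ω, rfl⟩
    exact ⟨g • ω, hsmulorb g ω⟩
  have hcov : ∀ ω : Ω, MulAction.orbit M ω ∈ Sig := fun ω => ⟨ω, rfl⟩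
  have heq : ∀ B ∈ Sig, ∀ ω ∈ B, B = MulAction.orbit M ω := by
    rintro B ⟨ω', rfl⟩ ω hω
    exact (MulAction.orbit_eq_iff.mpr hω).symm
  let K : Subgroup G :=
    { carrier := {g | ∀ X ∈ Sig, g • X = X}
      one_mem' := fun X _ => one_smul _ _
      mul_mem' := by
        intro a b ha hb X hX
        rw [mul_smul, hb X hX, ha X hX]
      inv_mem' := by
        intro a ha X hX
        rw [inv_smul_eq_iff, ha X hX] }
  have hKn : ∀ g : G, ∀ k ∈ K, g * k * g⁻¹ ∈ K := by
    intro g k hk X hX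
    rw [mul_smul, mul_smul, hk _ (hinv g⁻¹ X hX), smul_inv_smul]
  rcases map_eq_bot_or_top (A := K) hφ' (fun k _ a ha => hKn k a ha) with hK | hK
  · let _ : MulAction G Sig :=
      { smul := fun g X => ⟨g • (X : Set Ω), hinv g X X.2⟩
        one_smul := fun X => Subtype.ext (one_smul G (X : Set Ω))
        mul_smul := fun a b X => Subtype.ext (mul_smul a b (X : Set Ω)) }
    have hsm : ∀ (g : G) (X : Sig), ((g • X : Sig) : Set Ω) = g • (X : Set Ω) := fun _ _ => rfl
    have hlt : Nat.card Sig < Nat.card Ω := by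
      let f : Ω → Sig := fun ω => ⟨MulAction.orbit M ω, hcov ω⟩
      have hfs : Function.Surjective f := by
        rintro ⟨B, ω, rfl⟩
        exact ⟨ω, rfl⟩
      have hle := Nat.card_le_card_of_surjective f hfs
      rcases lt_or_eq_of_le hle with h | h
      · exact h
      · exfalso
        have hinj : Function.Injective f := by
          have := Fintype.ofFinite Ω
          have := Fintype.ofFinite Sig
          rw [Nat.card_eq_fintype_card, Nat.card_eq_fintype_card] at h
          exact ((Fintype.bijective_iff_surjective_and_card f).mpr ⟨hfs, h.symm⟩).1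
        apply hM
        rw [Subgroup.eq_bot_iff_forall]
        intro m hm
        apply hfaith
        intro ω
        apply hinj
        apply Subtype.ext
        change MulAction.orbit M (m • ω) = MulAction.orbit M ω
        rw [MulAction.orbit_eq_iff, hmemorb]
        exact ⟨m, hm, rfl⟩
    obtain ⟨Δ, h3, hf, hΔ⟩ := ihp G φ hφ hO Sig (Or.inr ⟨le_refl _, hlt⟩) (by
      intro x hx
      have hxK : x ∈ K := fun X hX => congrArg Subtype.val (hx ⟨X, hX⟩)
      have : φ x ∈ K.map φ := ⟨x, hxK, rfl⟩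
      rw [hK] at this
      exact Subgroup.mem_bot.mp this)
    have hex : ∀ B : Sig, ∃ ω : Ω, ω ∈ (B : Set Ω) := by
      rintro ⟨B, ω, rfl⟩
      exact ⟨ω, MulAction.mem_orbit_self ω⟩
    choose s hs using hex
    refine ⟨s '' Δ, (Set.ncard_image_le hf).trans h3, hf.image s, fun h => hΔ ?_⟩
    refine map_top_mono ?_ h
    intro g hg
    have hg' : g • (s '' Δ) = s '' Δ := hg
    rw [MulAction.mem_stabilizer_iff]
    have h4 : g • Δ ⊆ Δ := by
      rintro _ ⟨B, hB, rfl⟩
      have h5 : g • s B ∈ s '' Δ := by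
        rw [← hg']
        exact Set.smul_mem_smul_set ⟨B, hB, rfl⟩
      obtain ⟨B', hB', hBB'⟩ := h5
      have : g • B = B' := by
        apply Subtype.ext
        rw [hsm, heq B B.2 _ (hs B), hsmulorb, ← hBB', ← heq B' B'.2 _ (hs B')]
      change g • B ∈ Δ
      rw [this]; exact hB'
    exact Set.eq_of_subset_of_ncard_le h4 (by rw [Set.ncard_smul_set]) hf
  · obtain ⟨B, hB⟩ := block_lemma hT hK (ι := Sig)
      (fun B => ptStab G (B : Set Ω))
      (fun B => MulAction.stabilizer G (B : Set Ω))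
      (fun i g _ k hk => hKn g k hk)
      (by
        intro B g hg
        rw [MulAction.mem_stabilizer_iff]
        ext ω
        rw [Set.mem_smul_set_iff_inv_smul_mem]
        constructor
        · intro h
          have := hg _ h
          rw [smul_inv_smul] at this
          rw [this]; exact h
        · intro h
          rw [inv_smul_eq_iff.mpr (hg ω h).symm]
          exact h)
      (by
        intro B k hk e he ω hω
        have h1 : k⁻¹ • ω ∈ (B : Set Ω) := by
          rw [← Set.mem_smul_set_iff_inv_smul_mem, hk B B.2]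
          exact hω
        rw [mul_smul, mul_smul, he _ h1, smul_inv_smul])
      (by
        intro g _ hg
        have : g = 1 := by
          apply hfaith
          intro ω
          exact hg ⟨_, hcov ω⟩ ω (MulAction.mem_orbit_self ω)
        rw [this, map_one])
    set St : Subgroup G := MulAction.stabilizer G (B : Set Ω) with hSt
    have hKSt : K ≤ St := fun k hk => hk B B.2
    have hStmap : St.map φ = ⊤ := map_top_mono hKSt hK
    have hSmem : ∀ g ∈ St, ∀ x ∈ (B : Set Ω), g • x ∈ (B : Set Ω) := by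
      intro g hg x hx
      have hg' : g • (B : Set Ω) = B := hg
      rw [← hg']
      exact Set.smul_mem_smul_set hx
    let _ : MulAction St (B : Set Ω) :=
      { smul := fun g x => ⟨(g : G) • (x : Ω), hSmem g g.2 x x.2⟩
        one_smul := fun x => Subtype.ext (one_smul G (x : Ω))
        mul_smul := fun a b x => Subtype.ext (mul_smul (a : G) (b : G) (x : Ω)) }
    have hsm : ∀ (g : St) (x : (B : Set Ω)), ((g • x : (B : Set Ω)) : Ω) = (g : G) • (x : Ω) :=
      fun _ _ => rfl
    have hlt : Nat.card (B : Set Ω) < Nat.card Ω := by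
      rw [Nat.card_coe_set_eq, ← Set.ncard_univ]
      apply Set.ncard_lt_ncard ?_ (Set.toFinite _)
      rw [Set.ssubset_univ_iff]
      intro hBu
      apply hint
      intro ω ω'
      have h1 := heq B B.2 ω (by rw [hBu]; exact Set.mem_univ _)
      rw [← hmemorb, ← h1, hBu]
      exact Set.mem_univ _
    obtain ⟨Δ, h3, hf, hΔ⟩ := ihp.apply hO St hStmap (B : Set Ω) (Or.inr hlt) (by
      intro x hx
      apply hB
      intro ω hω
      exact congrArg Subtype.val (hx ⟨ω, hω⟩))
    have hΔne : Δ.Nonempty := by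
      by_contra hcon
      rw [Set.not_nonempty_iff_eq_empty] at hcon
      apply hΔ
      rw [hcon]
      have : MulAction.stabilizer St (∅ : Set (B : Set Ω)) = ⊤ := by
        rw [eq_top_iff]
        intro g _
        rw [MulAction.mem_stabilizer_iff, Set.smul_set_empty]
      rw [this, ← Subgroup.map_map, ← hStmap]
      congr 1
      ext x
      simp
    refine ⟨Subtype.val '' Δ, (Set.ncard_image_le hf).trans h3, hf.image _, fun h => hΔ ?_⟩
    rw [← Subgroup.map_map]
    refine map_top_mono ?_ h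
    intro g hg
    have hg' : g • (Subtype.val '' Δ) = Subtype.val '' Δ := hg
    have hgSt : g ∈ St := by
      obtain ⟨x, hx⟩ := hΔne
      have h1 : g • (x : Ω) ∈ Subtype.val '' Δ := by
        rw [← hg']
        exact Set.smul_mem_smul_set ⟨x, hx, rfl⟩
      obtain ⟨y, hy, hyx⟩ := h1
      rw [hSt, MulAction.mem_stabilizer_iff]
      rw [heq B B.2 x x.2, hsmulorb, ← hyx, ← heq B B.2 y y.2]
      exact heq B B.2 x x.2
    refine ⟨⟨g, hgSt⟩, ?_, rfl⟩
    rw [SetLike.mem_coe, MulAction.mem_stabilizer_iff]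
    have h4 : (⟨g, hgSt⟩ : St) • Δ ⊆ Δ := by
      rintro _ ⟨x, hx, rfl⟩
      have h5 : g • (x : Ω) ∈ Subtype.val '' Δ := by
        rw [← hg']
        exact Set.smul_mem_smul_set ⟨x, hx, rfl⟩
      obtain ⟨y, hy, hyx⟩ := h5
      have : (⟨g, hgSt⟩ : St) • x = y := Subtype.ext hyx.symm
      change (⟨g, hgSt⟩ : St) • x ∈ Δ
      rw [this]; exact hy
    exact Set.eq_of_subset_of_ncard_le h4 (by rw [Set.ncard_smul_set]) hf

end orbits

end Pool.Agent.TH82.BS
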