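import Pool.Agent.TH82.BS.NAApply

/-!
The induction step of the permutation theorem.
-/

namespace Pool.Agent.TH82.BS

open scoped Pointwise commutatorElement

universe u

variable {T : Type u} [Group T] [IsSimpleGroup T]
variable {G : Type u} [Group G] [Finite G]

theorem perm_step (hT : ¬ ∀ a b : T, a * b = b * a) (φ : G →* T)
    (hφ : Function.Surjective φ) (hO : OutFree φ)
    (Ω : Type u) [MulAction G Ω] [Finite Ω]
    (ihp : IHP T (Nat.card G) (Nat.card Ω)) (ihl : IHL T (Nat.card G) (Nat.card Ω))
    (hker : ∀ x : G, (∀ ω : Ω, x • ω = ω) → φ x = 1) : PermConcl φ Ω := by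
  classical
  by_cases hnf : ∃ g : G, g ≠ 1 ∧ ∀ ω : Ω, g • ω = ω
  · exact perm_of_nonfaithful φ hφ hO Ω ihp hker hnf
  have hfaith : ∀ x : G, (∀ ω : Ω, x • ω = ω) → x = 1 := by
    intro x hx
    by_contra hx1
    exact hnf ⟨x, hx1, hx⟩
  by_cases htr : ∃ M : Subgroup G, M.Normal ∧ M ≠ ⊥ ∧ ¬ ∀ ω ω' : Ω, ∃ m ∈ M, m • ω = ω'
  · obtain ⟨M, hMn, hM, hint⟩ := htr
    exact perm_of_intransitive hT φ hφ hO Ω ihp hfaith M hM hint
  have htrans : ∀ M : Subgroup G, M.Normal → M ≠ ⊥ → ∀ ω ω' : Ω, ∃ m ∈ M, m • ω = ω' := by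
    intro M hMn hM
    by_contra hcon
    exact htr ⟨M, hMn, hM, hcon⟩
  by_contra hbad
  have hpt : ∀ Δ : Set Ω, Δ.Finite → Δ.ncard ≤ 3 → (ptStab G Δ).map φ = ⊤ := by
    intro Δ hf h3
    by_contra h
    exact hbad (permConcl_of_ptStab hT Δ hf h3 h)
  obtain ⟨t₀, ht₀⟩ : ∃ t : T, t ≠ 1 := exists_ne 1
  obtain ⟨g₀, hg₀⟩ := hφ t₀
  have hGne : ∃ g : G, g ≠ 1 := ⟨g₀, fun h => ht₀ (by rw [← hg₀, h, map_one])⟩
  have htopne : (⊤ : Subgroup G) ≠ ⊥ := by
    intro h
    obtain ⟨g, hg⟩ := hGne
    apply hg
    have : g ∈ (⊥ : Subgroup G) := by rw [← h]; exact Subgroup.mem_top g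
    exact Subgroup.mem_bot.mp this
  have hΩ : Nonempty Ω := by
    by_contra hcon
    rw [not_nonempty_iff] at hcon
    obtain ⟨g, hg⟩ := hGne
    exact hg (hfaith g (fun ω => (hcon.false ω).elim))
  obtain ⟨α⟩ := hΩ
  set R : Subgroup G := MulAction.stabilizer G α with hRdef
  have hRmem : ∀ g : G, g ∈ R ↔ g • α = α := fun g => Iff.rfl
  have hR : R.map φ = ⊤ := by
    refine map_top_mono ?_ (hpt {α} (Set.finite_singleton α) (by simp))
    intro g hg
    exact hg α rfl
  have hRtop : R ≠ ⊤ := by
    intro h
    obtain ⟨g, hg⟩ := hGne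
    apply hg
    apply hfaith
    intro ω
    obtain ⟨m, -, hm⟩ := htrans ⊤ inferInstance htopne α ω
    have h1 : ∀ x : G, x • α = α := fun x => by
      rw [← hRmem, h]; exact Subgroup.mem_top x
    rw [← hm, h1, h1]
  have hRlt : Nat.card R < Nat.card G := by
    rcases lt_or_eq_of_le (Subgroup.card_le_card_group R) with h | h
    · exact h
    · exact absurd (Subgroup.eq_top_of_card_eq R h) hRtop
  have hN : φ.ker ≠ ⊥ := by
    intro h
    apply hRtop
    rw [eq_top_iff]
    intro g _
    have h1 : φ g ∈ R.map φ := by rw [hR]; exact Subgroup.mem_top _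
    obtain ⟨r, hr, hrg⟩ := h1
    have := (MonoidHom.ker_eq_bot_iff φ).mp h hrg
    rw [← this]
    exact hr
  obtain ⟨M, hM⟩ := (Set.toFinite {K : Subgroup G | K.Normal ∧ K ≠ ⊥ ∧ K ≤ φ.ker}).exists_minimal
    ⟨φ.ker, inferInstance, hN, le_refl _⟩
  obtain ⟨hMn, hMbot, hMker⟩ := hM.prop
  have hMtr := htrans M hMn hMbot
  have hmin : ∀ K : Subgroup G, K.Normal → ⊥ ≤ K → K ≤ M → K = ⊥ ∨ K = M := by
    intro K hK _ hKM
    by_cases hKb : K = ⊥
    · exact Or.inl hKb
    · exact Or.inr (hM.eq_of_le (show K ∈ _ from ⟨hK, hKb, hKM.trans hMker⟩) hKM)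
  have hreg : ∀ g : G, (∀ m ∈ M, g * m = m * g) → g • α = α → g = 1 := by
    intro g hg hgα
    apply hfaith
    intro ω
    obtain ⟨m, hm, rfl⟩ := hMtr α ω
    rw [← mul_smul, hg m hm, mul_smul, hgα]
  by_cases hab : ∀ a ∈ M, ∀ b ∈ M, a * b = b * a
  · -- affine case
    let _ : CommGroup M :=
      { (inferInstance : Group M) with
        mul_comm := fun a b => Subtype.ext (hab a a.2 b b.2) }
    let _ : DistribMulAction R (Additive M) :=
      { smul := fun r m => Additive.ofMul
          (⟨(r : G) * (m.toMul : G) * (r : G)⁻¹, hMn.conj_mem _ m.toMul.2 _⟩ : M)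
        one_smul := by
          intro m
          apply Additive.toMul.injective
          apply Subtype.ext
          change (1 : G) * (m.toMul : G) * (1 : G)⁻¹ = m.toMul
          group
        mul_smul := by
          intro a b m
          apply Additive.toMul.injective
          apply Subtype.ext
          change ((a : G) * (b : G)) * (m.toMul : G) * ((a : G) * (b : G))⁻¹ =
            (a : G) * ((b : G) * (m.toMul : G) * (b : G)⁻¹) * (a : G)⁻¹
          group
        smul_zero := by
          intro a
          apply Additive.toMul.injective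
          apply Subtype.ext
          change (a : G) * (1 : G) * (a : G)⁻¹ = 1
          group
        smul_add := by
          intro a x y
          apply Additive.toMul.injective
          apply Subtype.ext
          change (a : G) * ((x.toMul : G) * (y.toMul : G)) * (a : G)⁻¹ =
            ((a : G) * (x.toMul : G) * (a : G)⁻¹) * ((a : G) * (y.toMul : G) * (a : G)⁻¹)
          group }
    have hsm : ∀ (r : R) (m : Additive M), (((r • m).toMul : M) : G) =
      (r : G) * (m.toMul : G) * (r : G)⁻¹ := fun _ _ => rfl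
    obtain ⟨v₁, v₂, hv⟩ := ihl.apply hO R hR (Additive M) (Or.inl hRlt) (by
      intro x hx
      have : (x : G) = 1 := by
        apply hreg _ ?_ x.2
        intro m hm
        have h1 := hx (Additive.ofMul (⟨m, hm⟩ : M))
        have h2 := congrArg (fun z : Additive M => ((z.toMul : M) : G)) h1
        have h3 : (x : G) * m * (x : G)⁻¹ = m := h2
        exact mul_inv_eq_iff_eq_mul.mp h3
      rw [this, map_one])
    apply hv
    rw [← Subgroup.map_map]
    refine map_top_mono ?_ (hpt {α, (v₁.toMul : G) • α, (v₂.toMul : G) • α}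
      (Set.toFinite _) ((Set.ncard_insert_le _ _).trans
        (Nat.add_le_add_right ((Set.ncard_insert_le _ _).trans (by simp)) 1)))
    intro g hg
    have hgα : g • α = α := hg α (by simp)
    have hfix : ∀ v : Additive M, g • ((v.toMul : G) • α) = (v.toMul : G) • α →
        (⟨g, hgα⟩ : R) ∈ MulAction.stabilizer R v := by
      intro v hv'
      rw [MulAction.mem_stabilizer_iff]
      apply Additive.toMul.injective
      apply Subtype.ext
      rw [hsm]
      have h1 : (v.toMul : G)⁻¹ * (g * (v.toMul : G) * g⁻¹) = 1 := by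
        apply hreg
        · intro m hm
          exact hab _ (M.mul_mem (M.inv_mem v.toMul.2) (hMn.conj_mem _ v.toMul.2 g)) m hm
        · rw [mul_smul, mul_smul, mul_smul, inv_smul_eq_iff.mpr hgα.symm, hv', inv_smul_smul]
      exact (inv_mul_eq_one.mp h1).symm
    exact ⟨⟨g, hgα⟩, Subgroup.mem_inf.mpr ⟨hfix v₁ (hg _ (by simp)), hfix v₂ (hg _ (by simp))⟩,
      rfl⟩
  · have hφ' : (⊤ : Subgroup G).map φ = ⊤ := by
      rw [← MonoidHom.range_eq_map]; exact MonoidHom.range_eq_top.mpr hφ
    have hCn : (Subgroup.centralizer (M : Set G)).Normal := inferInstance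
    rcases map_eq_bot_or_top (A := Subgroup.centralizer (M : Set G)) hφ'
      (fun k _ a ha => hCn.conj_mem a ha k) with hC | hC
    · obtain ⟨x, hxM, hx⟩ := na_apply hT φ hφ hO ihp R hR hRlt M ⊥ hMn inferInstance
        (bot_lt_iff_ne_bot.mpr hMbot) hMker hmin
        (by
          intro h
          apply hab
          intro a ha b hb
          have h1 := h a ha b hb
          rw [Subgroup.mem_bot] at h1
          have : a * b = (a * b * a⁻¹ * b⁻¹) * (b * a) := by group
          rw [this, h1, one_mul])
        (by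
          intro g hg
          have h1 : g ∈ Subgroup.centralizer (M : Set G) := by
            rw [Subgroup.mem_centralizer_iff]
            intro m hm
            have h2 := hg m hm
            rw [Subgroup.mem_bot] at h2
            have : g * m = (g * m * g⁻¹ * m⁻¹) * (m * g) := by group
            rw [this, h2, one_mul]
          have : φ g ∈ (Subgroup.centralizer (M : Set G)).map φ := ⟨g, h1, rfl⟩
          rw [hC] at this
          exact Subgroup.mem_bot.mp this)
        (R ⊓ M)
        (by
          rintro r hr d ⟨hd, hd'⟩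
          exact ⟨R.mul_mem (R.mul_mem hr hd) (R.inv_mem hr), hMn.conj_mem d hd' r⟩)
        bot_le
        (by
          intro K hKD _ hKn k hk
          rw [Subgroup.mem_bot]
          apply hfaith
          intro ω
          obtain ⟨m, hm, rfl⟩ := hMtr α ω
          have h1 : m⁻¹ * k * m ∈ K := by
            have := hKn m⁻¹ (M.inv_mem hm) k hk
            simpa using this
          have h2 : (m⁻¹ * k * m) • α = α := (hKD h1).1
          rw [mul_smul, mul_smul, inv_smul_eq_iff] at h2
          exact h2)
      have hP := hpt {α, x • α} (Set.toFinite _) ((Set.ncard_insert_le _ _).trans (by simp))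
      refine hx _ ?_ ?_ hP
      · intro g hg
        exact hg α (by simp)
      · intro r hr
        have hrα : r • α = α := hr α (by simp)
        have hrx : r • (x • α) = x • α := hr _ (by simp)
        refine ⟨?_, M.mul_mem (M.inv_mem hxM) (hMn.conj_mem x hxM r)⟩
        change (x⁻¹ * (r * x * r⁻¹)) • α = α
        rw [mul_smul, mul_smul, mul_smul, inv_smul_eq_iff.mpr hrα.symm, hrx, inv_smul_smul]
    · -- diagonal type: centralizer maps onto `T`
      have h1 : t₀ ∈ (Subgroup.centralizer (M : Set G)).map φ := by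
        rw [hC]; exact Subgroup.mem_top _
      obtain ⟨y, hy, hyt⟩ := h1
      apply ht₀
      rw [← hyt]
      have hP := hpt {α, y • α} (Set.toFinite _) ((Set.ncard_insert_le _ _).trans (by simp))
      refine eq_one_of_commute hT hP ?_
      intro r hr
      have hrα : r • α = α := hr α (by simp)
      have hry : r • (y • α) = y • α := hr _ (by simp)
      have h2 : y⁻¹ * (r * y * r⁻¹) = 1 := by
        apply hreg
        · intro m hm
          have h3 : y⁻¹ * (r * y * r⁻¹) ∈ Subgroup.centralizer (M : Set G) :=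
            Subgroup.mul_mem _ (Subgroup.inv_mem _ hy) (hCn.conj_mem y hy r)
          rw [Subgroup.mem_centralizer_iff] at h3
          exact (h3 m hm).symm
        · rw [mul_smul, mul_smul, mul_smul, inv_smul_eq_iff.mpr hrα.symm, hry, inv_smul_smul]
      have h3 : y = r * y * r⁻¹ := inv_mul_eq_one.mp h2
      have h4 : y * r = r * y := by
        nth_rw 1 [h3]
        group
      rw [h4]

end Pool.Agent.TH82.BS
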